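import Pool.Agent.Lib.MP_8a3537_gt.RO.Spec

/-!
# Weakly Auslander regular coherent rings (MP_8a3537_gt, folder WAB): definitions

Paper: `/team-store/8a3537_WA.md`, PART 1. Conventions of the folders `AU` and `RO`: right modules,
columns.
-/

namespace Pool.Agent.Lib.MP8a3537.WAB

open Matrix Pool.Agent.Lib.MP8a3537.UV Pool.Agent.Lib.MP8a3537.AU Pool.Agent.Lib.MP8a3537.RO
open Pool.Agent.Lib.MP8a3537.UO (ext)

/-- A coherent ring `S` with involution, such that every finitely presented module has a finite free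
resolution, `Ext^j(M, S) = 0` for `j > d`, and `Ext^i(Ext^c(M, S), S) = 0` for `i < c`
(`M = H^0(P)` finitely presented, `Ext^c(M, S) = H^c(P^*)`). -/
structure WAR (S : Type) [Ring S] [StarRing S] (d : ℕ) : Prop where
  coh : ∀ (m n : ℕ) (M : Matrix (Fin m) (Fin n) S),
    ∃ (r : ℕ) (K : Matrix (Fin n) (Fin r) S), ∀ x : Fin n → S, M *ᵥ x = 0 ↔ ∃ y, x = K *ᵥ y
  ffr : ∀ (m n : ℕ) (M : Matrix (Fin m) (Fin n) S),
    ∃ (C : FC S) (g : Matrix (Fin m) C.I S), C.Resolves (rng M) ⊤ g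
  injdim : ∀ P : FC S, P.IsRes → P.dual.ExAbove d
  wa : ∀ P : FC S, P.IsRes → ∀ c : ℕ, ∃ (Q : FC S) (g : Matrix P.dual.I Q.I S),
    Q.Resolves (P.dual.Bd c) (P.dual.Cy c) g ∧ Q.dual.ExBelow c

/-- The degrees raised by `e`. -/
def sh {S : Type} [Ring S] (P : FC S) (e : ℤ) : FC S where
  I := P.I
  deg i := P.deg i + e
  d := P.d
  hd i j h := by
    have := P.hd i j h
    omega
  dd := P.dd

section Words

variable {R G : Type} [Ring R] [StarRing R] [Group G] {L : Subgroup G}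

/-- `w` is a homogeneous chain map from `C ⊗ R[G]` to `T ⊗ R[G]`. -/
structure WM (C T : FC (MonoidAlgebra R L)) (w : Matrix T.I C.I (MonoidAlgebra R G)) : Prop where
  gw : ∀ i j, w i j ≠ 0 → T.deg i = C.deg j
  cw : w * ext C.d = ext T.d * w

/-- The coboundaries and the components of the vectors `w x`, `x` a cocycle of degree `k`. -/
noncomputable def ZW (C T : FC (MonoidAlgebra R L)) (k : ℤ)
    (w : Matrix T.I C.I (MonoidAlgebra R G)) :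
    Submodule (MonoidAlgebra R L)ᵐᵒᵖ (T.I → MonoidAlgebra R L) :=
  T.Bd k ⊔ Submodule.span (MonoidAlgebra R L)ᵐᵒᵖ
    {z | ∃ x ∈ C.Cy k, ∃ t : G, z = fun i => lres L t ((w *ᵥ exv x) i)}

/-- The result of a surgery on `C` which kills `Z`. -/
structure SurW (Xa Xb : Set G) (ε : ℤˣ) (k : ℤ) (C C' : FC (MonoidAlgebra R L))
    (a b : Matrix C.I C.I (MonoidAlgebra R G)) (a' b' : Matrix C'.I C'.I (MonoidAlgebra R G))
    (p : Matrix C'.I C.I (MonoidAlgebra R L))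
    (Z : Submodule (MonoidAlgebra R L)ᵐᵒᵖ (C.I → MonoidAlgebra R L)) : Prop where
  nf : NF L Xa Xb ∅ ε C' a' 0 b'
  lv : C'.ExBelow k
  lv' : C'.dual.ExBelow k
  gp : ∀ i j, p i j ≠ 0 → C'.deg i = C.deg j
  ch : C'.d * p = p * C.d
  ea : (ext p)ᴴ * a' * ext p = a
  eb : b' = ext p * b * (ext p)ᴴ
  top : ∀ x' ∈ C'.Cy k, ∃ x ∈ C.Cy k, x' = p *ᵥ x
  kill : ∀ x ∈ Z, ∃ u, p *ᵥ x = C'.d *ᵥ u
  inj : ∀ y : C'.I → MonoidAlgebra R G, (∀ i, y i ≠ 0 → - C'.deg i = k) →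
    (ext C'.d)ᴴ *ᵥ y = 0 → (∃ u, (ext p)ᴴ *ᵥ y = (ext C.d)ᴴ *ᵥ u) →
    ∃ u, y = (ext C'.d)ᴴ *ᵥ u
  good : Good Xa Xb ε C' a' 0 b' → Good Xa Xb ε C a 0 b

/-- The result of a surgery on `C^*` which kills `Z` (`q = p^*`). -/
structure SurBW (Xa Xb : Set G) (ε : ℤˣ) (k : ℤ) (C C1 : FC (MonoidAlgebra R L))
    (a b : Matrix C.I C.I (MonoidAlgebra R G)) (a1 b1 : Matrix C1.I C1.I (MonoidAlgebra R G))
    (q : Matrix C.I C1.I (MonoidAlgebra R L))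
    (Z : Submodule (MonoidAlgebra R L)ᵐᵒᵖ (C.dual.I → MonoidAlgebra R L)) : Prop where
  nf : NF L Xa Xb ∅ ε C1 a1 0 b1
  lv : C1.ExBelow k
  lv' : C1.dual.ExBelow k
  gq : ∀ i j, q i j ≠ 0 → C.deg i = C1.deg j
  ch : C.d * q = q * C1.d
  eb : ext q * b1 * (ext q)ᴴ = b
  ea : a1 = (ext q)ᴴ * a * ext q
  top : ∀ y' ∈ C1.dual.Cy k, ∃ y ∈ C.dual.Cy k, y' = qᴴ *ᵥ y
  kill : ∀ y ∈ Z, ∃ u, qᴴ *ᵥ y = C1.dᴴ *ᵥ u
  inj : ∀ x : C1.I → MonoidAlgebra R G, (∀ i, x i ≠ 0 → C1.deg i = k) →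
    ext C1.d *ᵥ x = 0 → (∃ u, ext q *ᵥ x = ext C.d *ᵥ u) → ∃ u, x = ext C1.d *ᵥ u
  good : Good Xa Xb ε C1 a1 0 b1 → Good Xa Xb ε C a 0 b

end Words

end Pool.Agent.Lib.MP8a3537.WAB
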