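import Pool.Agent.Lib.MP_8a3537_gt.WAB.Spec
import Pool.Agent.Lib.MP_8a3537_gt.RO.AUM
import Pool.Agent.Lib.MP_8a3537_gt.AU.FNU

/-!
# WAB, module BTW: the single block
-/

namespace Pool.Agent.Lib.MP8a3537.WAB

open Matrix Pool.Agent.Lib.MP8a3537.UV Pool.Agent.Lib.MP8a3537.AU Pool.Agent.Lib.MP8a3537.RO
open Pool.Agent.Lib.MP8a3537.UO (ext)

open Pool.Agent.Lib.MP8a3537.AU.FNUAux in
/-- BTW: the single block (copy of the proof of `RO/SBT.lean`). -/
theorem specBTW (hACW : SpecACW) (hLVW : SpecLVW) : SpecBTW := by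
  intro R G _ _ _ L g Xa Xb Y d hLoc hreg ε n ψ χ hψ hχ hnil
  have ha : SuppIn Xa (ψ + (ε : ℤ) • ψᴴ) :=
    INDAux.supp_add hψ (INDAux.supp_units ε (INDAux.supp_star hψ hLoc.ai))
  have hb : SuppIn Xb (χ + (ε : ℤ) • χᴴ) :=
    INDAux.supp_add hχ (INDAux.supp_units ε (INDAux.supp_star hχ hLoc.bi))
  have hd0 : ext (G := G) (C0 (MonoidAlgebra R L) n).d = 0 := ext_zero
  have hNF : NF L Xa Xb ∅ ε (C0 (MonoidAlgebra R L) n) (ψ + (ε : ℤ) • ψᴴ) 0
      (χ + (ε : ℤ) • χᴴ) :=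
    { sa := ha
      sm := fun i j x hx => absurd rfl hx
      sb := hb
      ga := fun i j _ => rfl
      gm := fun i j _ => rfl
      gb := fun i j _ => rfl
      ha := INDAux.sym_of ε ψ
      hb := INDAux.sym_of ε χ
      ca := by
        rw [hd0]
        exact zero_a _
      cm := by
        rw [hd0]
      cb := by
        rw [hd0]
        exact zero_b _
      nil := hnil }
  have hlev : ∀ k : ℕ, ∃ (C' : FC (MonoidAlgebra R L))
      (a' b' : Matrix C'.I C'.I (MonoidAlgebra R G)),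
      NF L Xa Xb ∅ ε C' a' 0 b' ∧ C'.ExBelow k ∧ C'.dual.ExBelow k ∧
      (Good Xa Xb ε C' a' 0 b' →
        Good Xa Xb ε (C0 (MonoidAlgebra R L) n) (ψ + (ε : ℤ) • ψᴴ) 0 (χ + (ε : ℤ) • χᴴ)) := by
    intro k
    induction k with
    | zero =>
      refine ⟨_, _, _, hNF, ?_, ?_, id⟩
      · intro x hx _
        refine ⟨0, ?_⟩
        rw [mulVec_zero]
        funext i
        by_contra h
        exact absurd (hx i h) (by simp [C0])
      · intro x hx _
        refine ⟨0, ?_⟩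
        rw [mulVec_zero]
        funext i
        by_contra h
        have h1 : - (0 : ℤ) < ((0 : ℕ) : ℤ) := hx i h
        simp at h1
    | succ k ih =>
      obtain ⟨C', a', b', h1, h2, h3, h4⟩ := ih
      obtain ⟨C'', a'', b'', g1, g2, g3, g4⟩ :=
        hLVW R G L g Xa Xb Y hLoc ε d hreg C' a' b' k h1 h2 h3
      exact ⟨C'', a'', b'', g1, g2, g3, fun h => h4 (g4 h)⟩
  obtain ⟨k, hk⟩ := hACW (MonoidAlgebra R L) d hreg
  obtain ⟨C', a', b', h1, h2, h3, h4⟩ := hlev k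
  have hgood := h4 (auENV R G L Xa Xb ∅ ε C' a' 0 b' hLoc.ar hLoc.al hLoc.ai hLoc.an hLoc.br hLoc.bl hLoc.bi
    hLoc.bn h1 (hk C' h2 h3))
  let e : {i // (C0 (MonoidAlgebra R L) n).deg i = 0} ≃ Fin n :=
    { toFun := fun i => i.1
      invFun := fun i => ⟨i, rfl⟩
      left_inv := fun i => rfl
      right_inv := fun i => rfl }
  apply stab_reindex e
  exact hgood (ψ.submatrix e e) (χ.submatrix e e) (fun i j g hg => hψ _ _ g hg)
    (fun i j g hg => hχ _ _ g hg) rfl rfl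

end Pool.Agent.Lib.MP8a3537.WAB
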