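import Pool.Agent.Lib.MP_8a3537_gt.WAB.Spec
import Pool.Agent.Lib.MP_8a3537_gt.AU.DES
import Pool.Agent.Lib.MP_8a3537_gt.AU.FLT
import Pool.Agent.Lib.MP_8a3537_gt.AU.SYM
import Pool.Agent.Lib.MP_8a3537_gt.AU.EXF

/-!
# WAB, module EXW: extension of the forms to the cone of a surgery which kills `Z`
-/

namespace Pool.Agent.Lib.MP8a3537.WAB

open Matrix Pool.Agent.Lib.MP8a3537.UV Pool.Agent.Lib.MP8a3537.AU Pool.Agent.Lib.MP8a3537.RO
open Pool.Agent.Lib.MP8a3537.UO (ext)

open AU.EXFAux in
/-- **Module EXW**: extension of the forms. -/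
theorem specEXW : SpecEXW := by
  have hDES : SpecDES := specDES
  have hFLT : SpecFLT := specFLT
  have hSYM : SpecSYM := specSYM specDES
  intro R G _ _ _ L Xa Xb ε C J a b k Z g h1r h1l h1i h1n hNF hC hC' hZ hRD
  have hgH := supp_ext (G := G) g
  have hcg : ext (G := G) C.d * ext g + ext g * ext J.d = 0 := by
    rw [← ext_mul, ← ext_mul, ← ext_add, hRD.cg, ext_zero]
  -- the columns of degree `k`
  have hker : ∀ j, J.deg j = k → g *ᵥ Pi.single j 1 ∈ Ker C a 0 k := by
    intro j hj
    apply hZ
    apply hRD.g3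
    intro l hl
    by_cases h : l = j
    · rw [h, hj]
    · exact absurd (Pi.single_eq_of_ne h _) hl
  have hcolg : ∀ (M : Matrix C.I C.I (MonoidAlgebra R G)) (j : J.I),
      (M *ᵥ exv (g *ᵥ Pi.single j 1)) = fun i => (M * ext g) i j := by
    intro M j
    have e1 : (exv (G := G) (g *ᵥ Pi.single j (1 : MonoidAlgebra R L))) = fun i => ext g i j := by
      funext i
      change emb R L ((g *ᵥ Pi.single j 1) i) = emb R L (g i j)
      rw [Matrix.mulVec_single_one]
      rfl
    rw [e1]
    rfl
  -- E1
  obtain ⟨f, hf1, hf2, hf3s⟩ := extend_dual hDES hFLT C J k Xa h1r h1l hC' (a * ext g)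
    (INDAux.supp_mul hNF.sa hgH (fun x hx h hh => h1r h hh x hx))
    (by
      intro i j hij
      obtain ⟨l, _, hl⟩ := Finset.exists_ne_zero_of_sum_ne_zero hij
      have e1 := hNF.ga i l (left_ne_zero_of_mul hl)
      have e2 := hRD.gg l j (ext_ne g l j (right_ne_zero_of_mul hl))
      omega)
    hRD.dk
    (by
      have e2 : (ext (G := G) C.d)ᴴ * (a * ext g) = a * (ext C.d * ext g) := by
        rw [← Matrix.mul_assoc, ← hNF.ca, Matrix.mul_assoc]
      rw [e2, Matrix.mul_assoc a (ext g) (ext J.d), ← Matrix.mul_add, hcg, Matrix.mul_zero])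
    (by
      intro j hj
      obtain ⟨-, ⟨u, hu⟩, -⟩ := hker j hj
      refine ⟨u, ?_⟩
      rw [hcolg] at hu
      exact hu)
  -- E3
  obtain ⟨t, ht1, ht2, ht3, ht4⟩ := hSYM R G L Xa J k 1 1 ε
    ((ε : ℤ) • (fᴴ * ext g) - (ext g)ᴴ * f) h1r h1l h1i h1n hRD.dk
    (hFLT R G L Xa J.dual k h1l hRD.g4) le_rfl
    (by
      rw [sub_eq_add_neg]
      refine INDAux.supp_add (INDAux.supp_units ε (INDAux.supp_mul
        (INDAux.supp_star hf1 h1i) hgH (fun x hx h hh => h1r h hh x hx)))
        (INDAux.supp_neg (INDAux.supp_mul (INDAux.supp_star hgH (fun x hx => L.inv_mem hx)) hf1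
          (fun h hh x hx => h1l h hh x hx))))
    (by
      intro i j hij
      have key : ∀ i j, (fᴴ * ext g) i j ≠ 0 → J.deg i + J.deg j = 1 := by
        intro i j hij
        obtain ⟨l, _, hl⟩ := Finset.exists_ne_zero_of_sum_ne_zero hij
        have e1 : f l i ≠ 0 := by
          intro h0
          apply left_ne_zero_of_mul hl
          change star (f l i) = 0
          rw [h0, star_zero]
        have e2 : - C.deg l = J.deg i - 1 := hf2 l i e1
        have e3 := hRD.gg l j (ext_ne g l j (right_ne_zero_of_mul hl))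
        omega
      by_cases h1 : (fᴴ * ext g) i j = 0
      · have h2 : ((ext g)ᴴ * f) i j ≠ 0 := by
          intro h2
          apply hij
          rw [Matrix.sub_apply, Matrix.smul_apply, h1, h2, smul_zero, sub_zero]
        have h3 : (fᴴ * ext g) j i ≠ 0 := by
          intro h3
          apply h2
          have e1 : (ext g)ᴴ * f = (fᴴ * ext g)ᴴ := by
            rw [conjTranspose_mul, conjTranspose_conjTranspose]
          rw [e1, conjTranspose_apply, h3, star_zero]
        have := key j i h3
        omega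
      · exact key i j h1)
    (by
      rw [Units.val_one, one_smul]
      exact w_cocycle ε a (ext C.d) (ext J.d) (ext g) f hNF.ha hcg hf3s)
    (w_sym ε (ext g) f)
  refine ⟨f, t, ?_⟩
  exact
    { sf := hf1
      sf' := fun i j x hx => absurd rfl hx
      st := ht1
      gf := fun i j hij => by
        have : - C.deg i = J.deg j - 1 := hf2 i j hij
        omega
      gf' := fun i j hij => absurd rfl hij
      gt := fun i j hij => by
        have := ht2 i j hij
        omega
      ht := ht3
      cf := hf3s.symm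
      cf' := by rw [Matrix.zero_mul, Matrix.zero_mul, Matrix.mul_zero, add_zero]
      ct := by
        rw [Units.val_one, one_smul] at ht4
        exact ht4 }

end Pool.Agent.Lib.MP8a3537.WAB
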