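import Pool.Agent.Lib.MP_8a3537_gt.WAB.Spec
import Pool.Agent.Lib.MP_8a3537_gt.AU.DES
import Pool.Agent.Lib.MP_8a3537_gt.AU.FLT
import Pool.Agent.Lib.MP_8a3537_gt.AU.EXF

/-!
# WAB, module GRA: the composition vanishes on `H^0(Q0)`
-/

namespace Pool.Agent.Lib.MP8a3537.WAB

open Matrix Pool.Agent.Lib.MP8a3537.UV Pool.Agent.Lib.MP8a3537.AU Pool.Agent.Lib.MP8a3537.RO
open Pool.Agent.Lib.MP8a3537.UO (ext)

open AU.EXFAux in
/-- **Module GRA**. -/
theorem specGRA : SpecGRA := by
  have hDES : SpecDES := specDES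
  have hFLT : SpecFLT := specFLT
  intro R G _ _ _ L Q0 J P i m W g him hQ hP hEx hW hcomm hg hJg y hy
  have hEx' : Q0.dual.ExBelow ((i : ℤ) + 1) := by
    intro x hx hx0
    refine hEx x (fun j hj => ?_) hx0
    have := hx j hj
    have h1 : ((i : ℤ) + 1) ≤ m := by exact_mod_cast him
    omega
  have hFl := hFLT R G L Set.univ Q0.dual ((i : ℤ) + 1) (fun _ _ _ _ => Set.mem_univ _) hEx'
  have hN0 : (ext (G := G) Q0.d)ᴴ * (Wᴴ * ext g) + (Wᴴ * ext g) * ext P.d = 0 := by
    have e1 : (ext (G := G) Q0.d)ᴴ * (Wᴴ * ext g) = Wᴴ * (ext J.dᴴ * ext g) := by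
      rw [← Matrix.mul_assoc, ← conjTranspose_mul, ← hcomm, conjTranspose_mul, Matrix.mul_assoc,
        ext_star]
    rw [e1, Matrix.mul_assoc Wᴴ (ext g) (ext P.d), ← Matrix.mul_add, ← ext_mul, ← ext_mul,
      ← ext_add, hJg, ext_zero, Matrix.mul_zero]
  have key : ∃ h : Matrix Q0.I P.I (MonoidAlgebra R G),
      (ext (G := G) Q0.d)ᴴ * h = Wᴴ * ext g + h * ext P.d := by
   obtain ⟨h, -, -, -, hh⟩ := hDES (MonoidAlgebra R L) (MonoidAlgebra R G)
     (MonoidAlgebra.mapDomainRingHom R L.subtype) ⊤ Q0.dual P 0 ((i : ℤ) - 1) 1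
     (Wᴴ * ext g) 0
     (fun _ _ _ => AddSubgroup.mem_top _)
     (by
       intro x _ hxd hx0
       obtain ⟨z, -, hz⟩ := hFl x (fun _ _ _ => Set.mem_univ _)
         (fun j hj => by have := hxd j hj; omega) hx0
       exact ⟨z, fun _ => AddSubgroup.mem_top _, hz⟩)
     (fun _ _ => AddSubgroup.mem_top _)
     (fun _ _ => AddSubgroup.mem_top _)
     (by
       intro a b hab
       obtain ⟨l, _, hl⟩ := Finset.exists_ne_zero_of_sum_ne_zero hab
       have e1 : W l a ≠ 0 := by
         intro h0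
         apply left_ne_zero_of_mul hl
         change star (W l a) = 0
         rw [h0, star_zero]
       have e2 := hW l a e1
       have e3 := hg l b (ext_ne g l b (right_ne_zero_of_mul hl))
       change - Q0.deg a = P.deg b + ((i : ℤ) - 1) + 1
       omega)
     (fun _ _ h0 => absurd rfl h0)
     (by
       rw [Units.val_one, one_smul]
       change ext (Q0.dᴴ) * (Wᴴ * ext g) + (Wᴴ * ext g) * ext P.d = 0
       rw [← ext_star]
       exact hN0)
     (fun a b hb => absurd (hP b) (not_le.2 hb))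
   rw [Units.val_one, one_smul] at hh
   refine ⟨h, ?_⟩
   rw [ext_star]
   exact hh
  obtain ⟨h, hh'⟩ := key
  have h2 : (ext (G := G) g)ᴴ * W = hᴴ * ext Q0.d - (ext P.d)ᴴ * hᴴ := by
    have := congrArg conjTranspose hh'
    rw [conjTranspose_mul, conjTranspose_conjTranspose, conjTranspose_add, conjTranspose_mul,
      conjTranspose_mul, conjTranspose_conjTranspose] at this
    rw [this]
    abel
  have hzero : ext (G := G) Q0.d *ᵥ y = 0 := by
    funext a
    apply Finset.sum_eq_zero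
    intro b _
    by_contra hne
    have e1 := Q0.hd a b (ext_ne Q0.d a b (left_ne_zero_of_mul hne))
    have e2 := hy b (right_ne_zero_of_mul hne)
    have e3 := hQ a
    omega
  refine ⟨-(hᴴ *ᵥ y), ?_⟩
  rw [mulVec_mulVec, h2, sub_mulVec, ← mulVec_mulVec, ← mulVec_mulVec, hzero, mulVec_zero,
    zero_sub, mulVec_neg]

end Pool.Agent.Lib.MP8a3537.WAB
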