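import Pool.Agent.Lib.MP_8a3537_gt.WAB.Spec
import Pool.Agent.Lib.MP_8a3537_gt.UV.RES
import Pool.Agent.Lib.MP_8a3537_gt.AU.NLK

/-!
# Module GRB: `g^*` vanishes on `H^0(J)` (MP_8a3537_gt, folder WAB)
-/

namespace Pool.Agent.Lib.MP8a3537.WAB

open Matrix Pool.Agent.Lib.MP8a3537.UV Pool.Agent.Lib.MP8a3537.AU Pool.Agent.Lib.MP8a3537.RO
open Pool.Agent.Lib.MP8a3537.UO (ext)

namespace GRBAux

section Gen

variable {R G : Type} [Ring R] [Group G] {L : Subgroup G}

theorem lres_ext (t : G) {m n : Type} [Fintype n] (M : Matrix m n (MonoidAlgebra R L))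
    (u : n → MonoidAlgebra R G) (i : m) :
    lres L t ((ext M *ᵥ u) i) = (M *ᵥ fun j => lres L t (u j)) i := by
  change lres L t (∑ j, emb R L (M i j) * u j) = ∑ j, M i j * lres L t (u j)
  rw [RESAux.lres_sum]
  exact Finset.sum_congr rfl fun j _ => RESAux.lres_emb_mul L t (u j) (M i j)

theorem exv_add {n : Type} (x y : n → MonoidAlgebra R L) :
    (exv (x + y) : n → MonoidAlgebra R G) = exv x + exv y := by
  funext i
  exact map_add (MonoidAlgebra.mapDomainRingHom R L.subtype) (x i) (y i)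

end Gen

section YY

variable {S : Type} [Ring S] [StarRing S] (J P : FC S) (g : Matrix J.I P.I S)

/-- The vectors `y` of degree `0` with `gᴴ *ᵥ y` in the image of `P.dᴴ`. -/
def YY : Submodule Sᵐᵒᵖ (J.I → S) where
  carrier := {y | (∀ j, y j ≠ 0 → J.deg j = 0) ∧ ∃ v, gᴴ *ᵥ y = P.dᴴ *ᵥ v}
  zero_mem' := ⟨fun j h => absurd rfl h, 0, by rw [mulVec_zero, mulVec_zero]⟩
  add_mem' := by
    rintro x y ⟨hx, u, hu⟩ ⟨hy, v, hv⟩
    refine ⟨fun j h => ?_, u + v, by rw [mulVec_add, mulVec_add, hu, hv]⟩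
    by_cases h0 : x j = 0
    · apply hy j
      intro h1
      apply h
      simp [h0, h1]
    · exact hx j h0
  smul_mem' := by
    rintro s x ⟨hx, u, hu⟩
    refine ⟨fun j h => ?_, s • u, by rw [mulVec_smul, mulVec_smul, hu]⟩
    apply hx j
    intro h0
    apply h
    simp [h0]

variable {J P g}

/-- The vectors `z` which are `q y` modulo `B`, with `y` in `YY`. -/
def NN {m : Type} (B : Submodule Sᵐᵒᵖ (m → S)) (q : Matrix m J.I S)
    (Y : Submodule Sᵐᵒᵖ (J.I → S)) : Submodule Sᵐᵒᵖ (m → S) where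
  carrier := {z | ∃ y ∈ Y, z - q *ᵥ y ∈ B}
  zero_mem' := ⟨0, Y.zero_mem, by rw [mulVec_zero, sub_zero]; exact B.zero_mem⟩
  add_mem' := by
    rintro x x' ⟨y, hy, h⟩ ⟨y', hy', h'⟩
    refine ⟨y + y', Y.add_mem hy hy', ?_⟩
    have e : x + x' - q *ᵥ (y + y') = (x - q *ᵥ y) + (x' - q *ᵥ y') := by
      rw [mulVec_add]
      abel
    rw [e]
    exact B.add_mem h h'
  smul_mem' := by
    rintro s x ⟨y, hy, h⟩
    refine ⟨s • y, Y.smul_mem s hy, ?_⟩
    have e : s • x - q *ᵥ (s • y) = s • (x - q *ᵥ y) := by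
      rw [mulVec_smul, smul_sub]
    rw [e]
    exact B.smul_mem s h

end YY

/-- The part of degree `0` of `y`. -/
theorem part0 {S : Type} [Ring S] {m : Type} (Q : FC S) (g0 : Matrix m Q.I S)
    (hs : ∀ i j, g0 i j ≠ 0 → Q.deg j = 0) (y : Q.I → S) :
    ∃ y0 : Q.I → S, (∀ j, y0 j ≠ 0 → Q.deg j = 0) ∧ g0 *ᵥ y0 = g0 *ᵥ y := by
  refine ⟨fun j => if Q.deg j = 0 then y j else 0, fun j hj => ?_, ?_⟩
  · by_contra h0
    exact hj (if_neg h0)
  · funext i
    change ∑ j, g0 i j * (if Q.deg j = 0 then y j else 0) = ∑ j, g0 i j * y j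
    refine Finset.sum_congr rfl fun j _ => ?_
    by_cases h0 : Q.deg j = 0
    · rw [if_pos h0]
    · have h1 : g0 i j = 0 := by
        by_contra h2
        exact h0 (hs i j h2)
      rw [h1, zero_mul, zero_mul]

end GRBAux

open GRBAux

theorem specGRB : SpecGRB := by
  intro R G _ _ _ L C T Q0 J P k i w g0 q W g hw hZ hQ0 hJ hWd hlift hgd hgc hvan y hy
  -- the claim
  have claim : ZW C T k w ≤ NN (T.Bd k) q (YY J P g) := by
    refine sup_le ?_ (Submodule.span_le.2 ?_)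
    · intro z hz
      exact ⟨0, Submodule.zero_mem _, by rw [mulVec_zero, sub_zero]; exact hz⟩
    · rintro z ⟨x, hx, t, rfl⟩
      obtain ⟨y1, hy1⟩ := hQ0.onto x hx
      obtain ⟨y0, hy0, hg0⟩ := part0 Q0 g0 hQ0.supp y1
      obtain ⟨_, u, hu⟩ := hy1
      have hx1 : x = g0 *ᵥ y0 + C.d *ᵥ u := by
        rw [hg0, ← hu]
        abel
      obtain ⟨u', hu'⟩ := hlift y0 hy0
      have hwx : w *ᵥ exv x = ext q *ᵥ (W *ᵥ exv y0) +
          ext T.d *ᵥ (u' + w *ᵥ exv u) := by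
        have h1 : w *ᵥ exv (C.d *ᵥ u) = ext T.d *ᵥ (w *ᵥ exv u) := by
          rw [← NLKAux.ext_exv, mulVec_mulVec, hw.cw, ← mulVec_mulVec]
        conv_lhs => rw [hx1, exv_add, mulVec_add, hu', h1]
        rw [mulVec_add, add_assoc]
      set y2 : J.I → MonoidAlgebra R L := fun j => lres L t ((W *ᵥ exv y0) j) with hy2
      set u2 : T.I → MonoidAlgebra R L := fun j => lres L t ((u' + w *ᵥ exv u) j) with hu2
      have hz : (fun i => lres L t ((w *ᵥ exv x) i)) = q *ᵥ y2 + T.d *ᵥ u2 := by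
        funext j
        rw [hwx, Pi.add_apply, RESAux.lres_add, lres_ext, lres_ext, Pi.add_apply]
      have hyd : ∀ j, y2 j ≠ 0 → J.deg j = 0 := by
        intro j hj
        have h1 : (W *ᵥ exv y0) j ≠ 0 := by
          intro h0
          apply hj
          rw [hy2]
          change lres L t ((W *ᵥ exv y0) j) = 0
          rw [h0, RESAux.lres_zero]
        obtain ⟨l, hl, hl'⟩ := NLKAux.mulVec_ne h1
        rw [hWd j l hl]
        exact hy0 l (NLKAux.exv_ne hl')
      refine ⟨y2, ⟨hyd, ?_⟩, ?_⟩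
      · obtain ⟨v, hv⟩ := hvan (exv y0) (fun j hj => hy0 j (NLKAux.exv_ne hj))
        rw [← NLKAux.ext_star, ← NLKAux.ext_star] at hv
        refine ⟨fun j => lres L t (v j), ?_⟩
        funext j
        rw [hy2, ← lres_ext, ← lres_ext, hv]
      · have hzm : (fun i => lres L t ((w *ᵥ exv x) i)) ∈ ZW C T k w :=
          Submodule.mem_sup_right (Submodule.subset_span ⟨x, hx, t, rfl⟩)
        have h1 := hZ hzm
        have h2 := hZ (hJ.mem y2)
        have h3 := Submodule.sub_mem _ h1 h2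
        refine ⟨h3.1, u2, ?_⟩
        rw [hz]
        abel
  -- the conclusion
  obtain ⟨y', ⟨hy'd, v', hv'⟩, hyB⟩ := claim (hJ.mem y)
  have hdiff : ∀ j, (y - y') j ≠ 0 → J.deg j = 0 := by
    intro j hj
    by_cases h0 : y j = 0
    · apply hy'd j
      intro h1
      apply hj
      rw [Pi.sub_apply, h0, h1, sub_zero]
    · exact hy j h0
  obtain ⟨z, hz⟩ := hJ.ker (y - y') hdiff (by rw [mulVec_sub]; exact hyB)
  have hstar : gᴴ * J.d = -(P.dᴴ * gᴴ) := by
    have h1 := congrArg conjTranspose hgc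
    rw [conjTranspose_add, conjTranspose_mul, conjTranspose_mul, conjTranspose_conjTranspose,
      conjTranspose_zero] at h1
    exact eq_neg_of_add_eq_zero_left h1
  refine ⟨v' - gᴴ *ᵥ z, ?_⟩
  have h4 : y = y' + J.d *ᵥ z := by
    rw [← hz]
    abel
  rw [h4, mulVec_add, hv', mulVec_mulVec, hstar, neg_mulVec, ← mulVec_mulVec, mulVec_sub]
  abel

end Pool.Agent.Lib.MP8a3537.WAB
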