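import Pool.Agent.Lib.MP_8a3537_gt.WAB.Spec
import Pool.Agent.Lib.MP_8a3537_gt.AU.DES

/-!
# MP_8a3537_gt, folder WAB: module GRC (exactness of the dual in one more degree)
-/

set_option autoImplicit false

namespace Pool.Agent.Lib.MP8a3537.WAB

open Matrix Pool.Agent.Lib.MP8a3537.UV Pool.Agent.Lib.MP8a3537.AU Pool.Agent.Lib.MP8a3537.RO

namespace GRCAux

/-- the part of a cocycle of one degree is a cocycle -/
theorem part_cocycle {S : Type} [Ring S] (C : FC S) (x : C.I → S) (hx : C.d *ᵥ x = 0) (k : ℤ) :
    C.d *ᵥ (fun i => if C.deg i = k then x i else 0) = 0 := by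
  funext a
  by_cases ha : C.deg a = k + 1
  · have h1 : (C.d *ᵥ (fun i => if C.deg i = k then x i else 0)) a = (C.d *ᵥ x) a := by
      simp only [mulVec, dotProduct]
      apply Finset.sum_congr rfl
      intro l _
      by_cases h0 : C.d a l = 0
      · rw [h0, zero_mul, zero_mul]
      · have := C.hd a l h0
        rw [if_pos (by omega)]
    rw [h1, hx]
  · simp only [mulVec, dotProduct, Pi.zero_apply]
    apply Finset.sum_eq_zero
    intro l _
    by_cases h0 : C.d a l = 0
    · rw [h0, zero_mul]
    · have := C.hd a l h0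
      rw [if_neg (by omega), mul_zero]

end GRCAux

open GRCAux in
theorem specGRC : SpecGRC := by
  intro S _ _ J P i γ g hJ0 hγ hP hJ hgd hgγ hg hv
  -- the vectors `v_a`
  have hV : ∀ a : J.I, J.deg a = 0 → ∃ v : P.I → S, ∀ b, (P.dᴴ *ᵥ v) b = gᴴ b a := by
    intro a ha
    obtain ⟨v, hv'⟩ := hv (Pi.single a 1) (by
      intro l hl
      have : l = a := by
        by_contra hne
        exact hl (Pi.single_eq_of_ne hne _)
      rw [this, ha])
    refine ⟨v, fun b => ?_⟩
    rw [← hv', mulVec_single_one]
    rfl
  choose! v hv' using hV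
  have hid : ∀ C : FC S, (C.d.map (RingHom.id S)) = C.d := by
    intro C
    ext i j
    simp
  obtain ⟨F, hF⟩ : ∃ F : Matrix P.dual.I J.I S, ∀ b a, F b a =
      if J.deg a = 0 ∧ - P.deg b = (i : ℤ) - 1 then v a b else 0 :=
    ⟨fun b a => if J.deg a = 0 ∧ - P.deg b = (i : ℤ) - 1 then v a b else 0, fun _ _ => rfl⟩
  have hMd : ∀ (b : P.dual.I) (a : J.I), gᴴ b a ≠ 0 → P.dual.deg b = J.deg a + ((i : ℤ) - 1) + 1 := by
    intro b a hba
    have h0 : g a b ≠ 0 := by
      intro h
      apply hba
      rw [conjTranspose_apply, h, star_zero]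
    have h1 := hgd a b h0
    change - P.deg b = _
    omega
  obtain ⟨h, _, _, _, h4⟩ := specDES S S (RingHom.id S) ⊤ P.dual J (-1) ((i : ℤ) - 1) 1 gᴴ F
    (fun _ _ _ => AddSubgroup.mem_top _)
    (by
      intro x _ hx1 hx2
      rw [hid] at hx2
      obtain ⟨y, hy⟩ := hP x (fun l hl => by have := hx1 l hl; omega) hx2
      exact ⟨y, fun _ => AddSubgroup.mem_top _, by rw [hid]; exact hy⟩)
    (fun _ _ => AddSubgroup.mem_top _) (fun _ _ => AddSubgroup.mem_top _)
    hMd
    (by
      intro b a hba
      rw [hF] at hba
      split_ifs at hba with hc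
      · change - P.deg b = _
        omega
      · exact absurd rfl hba)
    (by
      rw [hid, hid]
      have h1 := congrArg conjTranspose hg
      rw [conjTranspose_add, conjTranspose_mul, conjTranspose_mul, conjTranspose_conjTranspose,
        conjTranspose_zero] at h1
      have h2 : P.dᴴ * gᴴ + gᴴ * J.d = 0 := by
        rw [add_comm]
        exact h1
      rw [Units.val_one, one_smul]
      exact h2)
    (by
      intro b a ha
      have hja := hJ0 a
      have ha0 : J.deg a = 0 := by omega
      rw [hid, hid]
      have e2 : (F * J.d) b a = 0 := by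
        rw [mul_apply]
        apply Finset.sum_eq_zero
        intro l _
        by_cases h0 : J.d l a = 0
        · rw [h0, mul_zero]
        · exfalso
          have a1 := J.hd l a h0
          have a2 := hJ0 l
          omega
      rw [Matrix.add_apply, Matrix.smul_apply, e2, smul_zero, add_zero]
      by_cases hb : P.dual.deg b = i
      · have e1 : (P.dual.d * F) b a = (P.dᴴ *ᵥ v a) b := by
          simp only [mul_apply, mulVec, dotProduct, hF]
          apply Finset.sum_congr rfl
          intro l _
          by_cases h0 : P.dual.d b l = 0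
          · have h0' : P.dᴴ b l = 0 := h0
            rw [h0, h0', zero_mul, zero_mul]
          · have a1 := P.dual.hd b l h0
            have a2 : P.dual.deg l = - P.deg l := rfl
            rw [if_pos ⟨ha0, by omega⟩]
            rfl
        rw [e1]
        exact hv' a ha0 b
      · have e1 : (P.dual.d * F) b a = 0 := by
          simp only [mul_apply, hF]
          apply Finset.sum_eq_zero
          intro l _
          by_cases h0 : P.dual.d b l = 0
          · rw [h0, zero_mul]
          · have a1 := P.dual.hd b l h0
            have a2 : P.dual.deg l = - P.deg l := rfl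
            rw [if_neg (by rintro ⟨_, a3⟩; omega), mul_zero]
        have e3 : gᴴ b a = 0 := by
          by_contra h0
          have := hMd b a h0
          omega
        exact e1.trans e3.symm)
  rw [hid, hid, Units.val_one, one_smul] at h4
  -- the homotopy
  obtain ⟨h', hh'⟩ : ∃ h' : Matrix P.I J.I S, h' = h := ⟨h, rfl⟩
  have h5 : P.dᴴ * h' = gᴴ + h' * J.d := by
    rw [hh']
    exact h4
  have hgh : g = h'ᴴ * P.d - J.dᴴ * h'ᴴ := by
    have h1 := congrArg conjTranspose h5
    rw [conjTranspose_mul, conjTranspose_add, conjTranspose_conjTranspose, conjTranspose_mul,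
      conjTranspose_conjTranspose] at h1
    rw [h1]
    abel
  have hPd : ∀ y : P.I → S, (∀ j, y j ≠ 0 → P.deg j = 0) → P.d *ᵥ y = 0 := by
    intro y hy
    funext b
    simp only [mulVec, dotProduct, Pi.zero_apply]
    apply Finset.sum_eq_zero
    intro l _
    by_cases h0 : P.d b l = 0
    · rw [h0, zero_mul]
    · by_cases h1 : y l = 0
      · rw [h1, mul_zero]
      · exfalso
        have a1 := P.hd b l h0
        have a2 := hy l h1
        have a3 := hγ.res.1 b
        omega
  have hγb : ∀ y : P.I → S, ∃ u : J.I → S, γ *ᵥ y = J.dᴴ *ᵥ u := by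
    intro y
    have hy0 : ∀ j, (if P.deg j = 0 then y j else 0) ≠ 0 → P.deg j = 0 := by
      intro j hj
      by_contra hne
      rw [if_neg hne] at hj
      exact hj rfl
    refine ⟨- (h'ᴴ *ᵥ (fun j => if P.deg j = 0 then y j else 0)), ?_⟩
    have e1 : γ *ᵥ y = g *ᵥ (fun j => if P.deg j = 0 then y j else 0) := by
      funext a
      simp only [mulVec, dotProduct]
      apply Finset.sum_congr rfl
      intro l _
      by_cases hl : P.deg l = 0
      · rw [if_pos hl, hgγ a l hl]
      · have h0 : γ a l = 0 := by
          by_contra h0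
          exact hl (hγ.supp a l h0)
        rw [if_neg hl, h0, zero_mul, mul_zero]
    rw [e1, hgh, sub_mulVec, ← mulVec_mulVec, ← mulVec_mulVec, hPd _ hy0, mulVec_zero, mulVec_neg,
      zero_sub]
  -- the conclusion
  intro x hx1 hx2
  have hxk : ∀ a, x a ≠ 0 → J.dual.deg a ≤ i := by
    intro a ha
    have := hx1 a ha
    push_cast at this
    omega
  have hx' := part_cocycle J.dual x hx2 i
  obtain ⟨y, hy⟩ := hγ.onto (fun a => if J.dual.deg a = i then x a else 0)
    ⟨fun a ha => by
      by_contra hne
      dsimp only at ha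
      rw [if_neg hne] at ha
      exact ha rfl, hx'⟩
  obtain ⟨u, hu⟩ := hy.2
  obtain ⟨u2, hu2⟩ : ∃ u2 : J.dual.I → S, γ *ᵥ y = J.dual.d *ᵥ u2 := hγb y
  obtain ⟨u3, hu3⟩ := hJ (fun a => if J.dual.deg a = i then 0 else x a)
    (by
      intro a ha
      by_cases h0 : J.dual.deg a = i
      · rw [if_pos h0] at ha
        exact absurd rfl ha
      · rw [if_neg h0] at ha
        have := hxk a ha
        omega)
    (by
      have h1 : (fun a => if J.dual.deg a = i then 0 else x a) =
          x - (fun a => if J.dual.deg a = i then x a else 0) := by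
        funext a
        simp only [Pi.sub_apply]
        split_ifs <;> simp
      rw [h1, mulVec_sub, hx2, hx', sub_zero])
  refine ⟨u + u2 + u3, ?_⟩
  have hsum : x = (fun a => if J.dual.deg a = i then x a else 0) +
      (fun a => if J.dual.deg a = i then 0 else x a) := by
    funext a
    simp only [Pi.add_apply]
    split_ifs <;> simp
  rw [mulVec_add, mulVec_add, ← hu, ← hu2, ← hu3]
  funext a
  have h6 := congrFun hsum a
  simp only [Pi.add_apply, Pi.sub_apply] at h6 ⊢
  rw [sub_add_cancel]
  exact h6

end Pool.Agent.Lib.MP8a3537.WAB
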