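import Pool.Agent.Lib.MP_8a3537_gt.WAB.Spec

/-!
# MP_8a3537_gt, folder WAB: module GRD (LEMMA G, the grade of `ZW`)
-/

set_option autoImplicit false

namespace Pool.Agent.Lib.MP8a3537.WAB

open Matrix Pool.Agent.Lib.MP8a3537.UV Pool.Agent.Lib.MP8a3537.AU Pool.Agent.Lib.MP8a3537.RO

theorem specGRD (hRSC : SpecRSC) (hZWF : SpecZWF) (hGRE : SpecGRE) (hWLF : SpecWLF)
    (hGRA : SpecGRA) (hGRB : SpecGRB) (hGRC : SpecGRC) : SpecGRD := by
  intro R G _ _ _ L d hS C T k w hw m Q0 g0 hQ0 hQd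
  obtain ⟨hfg, hle, hle'⟩ := hZWF R G L d hS C T k w hw
  obtain ⟨J, q, hJ⟩ := (hRSC _ d hS).1 T.I (T.Bd k) (ZW C T k w) hle ((hRSC _ d hS).2 T k).2 hfg
  obtain ⟨W, hW1, hW2, hW3⟩ := hWLF R G L C T Q0 J k w g0 q hw hle' hQ0 hJ
  refine ⟨J, q, hJ, ?_⟩
  have key : ∀ i : ℕ, i ≤ m → J.dual.ExBelow i := by
    intro i
    induction i with
    | zero =>
      intro _ x hx _
      refine ⟨0, ?_⟩
      rw [mulVec_zero]
      funext i
      by_contra h1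
      have h2 : - J.deg i < ((0 : ℕ) : ℤ) := hx i h1
      have h3 := hJ.res.1 i
      push_cast at h2
      omega
    | succ i ih =>
      intro hi
      have hb := ih (by omega)
      obtain ⟨P, γ, hP, hPd⟩ := hS.wa J hJ.res i
      obtain ⟨g, hg1, hg2, hg3⟩ := hGRE _ J P i γ hP hb
      have hA := hGRA R G L Q0 J P i m W g (by omega) hQ0.res.1 hP.res.1 hQd hW1 hW2 hg1 hg3
      have hB := hGRB R G L C T Q0 J P k i w g0 q W g hw hle' hQ0 hJ hW1 hW3 hg1 hg3 hA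
      exact hGRC _ J P i γ g hJ.res.1 hP hPd hb hg1 hg2 hg3 hB
  exact key m le_rfl

end Pool.Agent.Lib.MP8a3537.WAB
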