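import Pool.Agent.Lib.MP_8a3537_gt.WAB.Spec
import Pool.Agent.Lib.MP_8a3537_gt.RO.AUM

/-!
# MP_8a3537_gt, folder WAB: module GRE (extension to a chain map)
-/

set_option autoImplicit false

namespace Pool.Agent.Lib.MP8a3537.WAB

open Matrix Pool.Agent.Lib.MP8a3537.UV Pool.Agent.Lib.MP8a3537.AU Pool.Agent.Lib.MP8a3537.RO

theorem specGRE : SpecGRE := by
  intro S _ _ J P i γ hγ hJ
  have hcol : ∀ b, (fun a => γ a b) ∈ J.dual.Cy i := by
    intro b
    have h := hγ.mem (Pi.single b 1)
    rw [mulVec_single_one] at h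
    exact h
  obtain ⟨g, h1, h2, h3⟩ := auLIF S J.dual (sh P i) i γ hJ
    (fun j => by
      have := hγ.res.1 j
      change P.deg j + i ≤ i
      omega)
    (fun a b hab => ⟨(hcol b).1 a hab, by
      change P.deg b + i = i
      rw [hγ.supp a b hab, zero_add]⟩)
    (by
      ext a b
      exact congrFun (hcol b).2 a)
    (fun x _ => (hγ.im x).2)
  refine ⟨g, fun a b hab => h1 a b hab, fun a b hb => h2 a b ?_, h3⟩
  change P.deg b + i = i
  rw [hb, zero_add]

end Pool.Agent.Lib.MP8a3537.WAB
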