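import Pool.Agent.Lib.MP_8a3537_gt.WAB.Spec
import Pool.Agent.Lib.MP_8a3537_gt.RO.LVB

/-!
# WAB, module LVW (helper53): one level
-/

namespace Pool.Agent.Lib.MP8a3537.WAB

open Matrix Pool.Agent.Lib.MP8a3537.UV Pool.Agent.Lib.MP8a3537.AU Pool.Agent.Lib.MP8a3537.RO
open Pool.Agent.Lib.MP8a3537.UO (ext)
open Pool.Agent.Lib.MP8a3537.AU.LVLAux
open Pool.Agent.Lib.MP8a3537.RO.LVBM (nil_ba exv_mulVec exv_ne mulVec_ne)

namespace LVWAux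

variable {R G : Type} [Ring R] [StarRing R] [Group G] {L : Subgroup G}

theorem base (hMRS : SpecMRS) (hRDW : SpecRDW) (hSBW : SpecSBW) {g : G} {Xa Xb Y : Set G}
    (hL : Loc L g Xa Xb Y) (ε : ℤˣ) (d : ℕ)
    (hA : WAR (MonoidAlgebra R L) d) (C : FC (MonoidAlgebra R L))
    (a b : Matrix C.I C.I (MonoidAlgebra R G)) (k : ℕ) (hNF : NF L Xa Xb ∅ ε C a 0 b)
    (hB : C.ExBelow k) (hB' : C.dual.ExBelow k) (hP : PL C a b k 0) :
    ∃ (C' : FC (MonoidAlgebra R L)) (a' b' : Matrix C'.I C'.I (MonoidAlgebra R G)),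
      NF L Xa Xb ∅ ε C' a' 0 b' ∧ C'.ExBelow (k + 1 : ℕ) ∧ C'.dual.ExBelow (k + 1 : ℕ) ∧
      (Good Xa Xb ε C' a' 0 b' → Good Xa Xb ε C a 0 b) := by
  have hk : ∀ x ∈ C.Cy k, ∃ y, x = C.d *ᵥ y := by
    intro x hx
    obtain ⟨u, hu⟩ := hP x hx
    rw [pow_zero, one_mulVec] at hu
    exact down C.d x u (fun i => by rw [hu])
  have hE : C.ExBelow (k + 1) := step_ex C k hB hk
  have hker : C.dual.Cy k ≤ Ker (G := G) C.dual b 0 k := by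
    intro y hy
    refine ⟨hy, ?_, ⟨0, by rw [zero_mulVec, mulVec_zero]⟩⟩
    have hex := specFLT R G L Set.univ C (k + 1) (fun _ _ _ _ => Set.mem_univ _) hE
    have g1 : ∀ i, (b *ᵥ exv y) i ≠ 0 → C.deg i < k + 1 := by
      intro i hi
      obtain ⟨j, h1, h2⟩ := mulVec_ne hi
      have h3 := hNF.gb i j h1
      have h4 : - C.deg j = k := hy.1 j (exv_ne h2)
      omega
    have g2 : ext C.d *ᵥ (b *ᵥ exv y) = 0 := by
      have h5 : C.dᴴ *ᵥ y = 0 := hy.2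
      rw [mulVec_mulVec, ← hNF.cb, ← mulVec_mulVec, ext_star, ← exv_mulVec, h5, exv_zero,
        mulVec_zero]
    obtain ⟨u, -, hu⟩ := hex (b *ᵥ exv y) (fun _ _ _ => Set.mem_univ _) g1 g2
    refine ⟨u, ?_⟩
    have h6 : (ext (G := G) C.dual.d)ᴴ = ext C.d := by
      change (ext (G := G) C.dᴴ)ᴴ = ext C.d
      rw [ext_star, conjTranspose_conjTranspose]
    rw [h6]
    exact hu
  obtain ⟨Q, g', hQ, hQd⟩ := hMRS (MonoidAlgebra R L) d hA C.dual k hB' (exBelow_dd C k hB)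
  obtain ⟨J, g0, hJ⟩ := hRDW (MonoidAlgebra R L) C.dual k (C.dual.Cy k) hB' le_rfl Q g' hQ hQd
  obtain ⟨C1, a1, b1, q, hS⟩ := hSBW R G L Xa Xb ε hL.bl hL.br hL.bi hL.bn C a b k
    (C.dual.Cy k) hNF hB hB' hker ⟨J, g0, hJ⟩
  refine ⟨C1, a1, b1, hS.nf, ?_, ?_, hS.good⟩
  · rw [Nat.cast_add, Nat.cast_one]
    refine step_ex C1 k hS.lv ?_
    intro x hx
    have hqx : q *ᵥ x ∈ C.Cy k := by
      constructor
      · intro i hi
        obtain ⟨j, h1, h2⟩ := mulVec_ne hi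
        rw [hS.gq i j h1, hx.1 j h2]
      · rw [mulVec_mulVec, hS.ch, ← mulVec_mulVec, hx.2, mulVec_zero]
    obtain ⟨u', hu'⟩ := hk _ hqx
    obtain ⟨u, hu⟩ := hS.inj (exv x) (fun i hi => hx.1 i (exv_ne hi))
      (by rw [← exv_mulVec, hx.2, exv_zero])
      ⟨exv u', by rw [← exv_mulVec, hu', exv_mulVec]⟩
    exact down C1.d x u (fun i => by rw [hu])
  · rw [Nat.cast_add, Nat.cast_one]
    refine step_ex C1.dual k hS.lv' ?_
    intro y' hy'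
    obtain ⟨y, hy, rfl⟩ := hS.top y' hy'
    exact hS.kill y hy

theorem main (hMRS : SpecMRS) (hRDW : SpecRDW) (hSBW : SpecSBW) (hSTW : SpecSTW) (hSAW : SpecSAW)
    {g : G} {Xa Xb Y : Set G}
    (hL : Loc L g Xa Xb Y) (ε : ℤˣ) (d : ℕ) (hA : WAR (MonoidAlgebra R L) d) (k l : ℕ) :
    ∀ (C : FC (MonoidAlgebra R L)) (a b : Matrix C.I C.I (MonoidAlgebra R G)),
    NF L Xa Xb ∅ ε C a 0 b → C.ExBelow k → C.dual.ExBelow k → PL C a b k l →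
    ∃ (C' : FC (MonoidAlgebra R L)) (a' b' : Matrix C'.I C'.I (MonoidAlgebra R G)),
      NF L Xa Xb ∅ ε C' a' 0 b' ∧ C'.ExBelow (k + 1 : ℕ) ∧ C'.dual.ExBelow (k + 1 : ℕ) ∧
      (Good Xa Xb ε C' a' 0 b' → Good Xa Xb ε C a 0 b) := by
  induction l with
  | zero =>
    intro C a b hNF hB hB' hP
    exact base hMRS hRDW hSBW hL ε d hA C a b k hNF hB hB' hP
  | succ l ih =>
    intro C a b hNF hB hB' hP
    obtain ⟨C1, a1, b1, hN1, hE1, hE1', -, hQ1, hG1⟩ :=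
      hSTW R G L g Xa Xb Y hL ε d hA C a b k l hNF hB hB' hP
    obtain ⟨C2, a2, b2, hN2, hE2, hE2', hP2, hG2⟩ :=
      hSAW R G L g Xa Xb Y hL ε d hA C1 a1 b1 k l hN1 hE1 hE1' hQ1
    obtain ⟨C3, a3, b3, hN3, hE3, hE3', hG3⟩ := ih C2 a2 b2 hN2 hE2 hE2' hP2
    exact ⟨C3, a3, b3, hN3, hE3, hE3', fun h => hG1 (hG2 (hG3 h))⟩

end LVWAux

/-- **Module LVW**: one level. -/
theorem specLVW (hMRS : SpecMRS) (hRDW : SpecRDW) (hSBW : SpecSBW) (hSTW : SpecSTW)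
    (hSAW : SpecSAW) : SpecLVW := by
  intro R G _ _ _ L g Xa Xb Y hL ε d hA C a b k hNF hB hB'
  obtain ⟨l, hl⟩ := nil_ba ε a b hNF.nil
  refine LVWAux.main hMRS hRDW hSBW hSTW hSAW hL ε d hA k l C a b hNF hB hB' ?_
  intro x _
  exact ⟨0, by rw [hl, zero_mulVec, mulVec_zero]⟩

end Pool.Agent.Lib.MP8a3537.WAB
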