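import Pool.Agent.Lib.MP_8a3537_gt.WAB.Spec
import Pool.Agent.Lib.MP_8a3537_gt.AU.TRU
import Pool.Agent.Lib.MP_8a3537_gt.AU.RSP

/-!
# Base theorem for weakly Auslander regular coherent rings: module MRS, a resolution of `H^k(C)`
-/

namespace Pool.Agent.Lib.MP8a3537.WAB

open Matrix Pool.Agent.Lib.MP8a3537.UV Pool.Agent.Lib.MP8a3537.AU Pool.Agent.Lib.MP8a3537.RO
open Pool.Agent.Lib.MP8a3537.UO (ext)

open Pool.Agent.Lib.MP8a3537.AU.RSPAux in
theorem specMRS (h : SpecRSC) : SpecMRS := by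
  intro S _ _ d hS C k hC hCd
  rcases Nat.eq_zero_or_pos k with hk | hk
  · subst hk
    obtain ⟨h1, h2⟩ := h S d hS
    obtain ⟨hz, hb⟩ := h2 C ((0 : ℕ) : ℤ)
    have hle : C.Bd ((0 : ℕ) : ℤ) ≤ C.Cy ((0 : ℕ) : ℤ) := by
      rintro x ⟨hx, y, hy⟩
      refine ⟨hx, ?_⟩
      rw [hy, mulVec_mulVec, C.dd, zero_mulVec]
    obtain ⟨J, q, hJ⟩ := h1 C.I _ _ hle hb hz
    refine ⟨J, q, hJ, ?_⟩
    intro x hx _
    refine ⟨0, ?_⟩
    rw [mulVec_zero]
    funext i
    by_contra hne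
    have h3 := hx i hne
    have h4 := hJ.res.1 i
    have h5 : J.dual.deg i = - J.deg i := rfl
    rw [h5] at h3
    push_cast at h3
    omega
  · obtain ⟨P, ρ, hP, hρ, hPdeg, hsurj, hPd, hcy, hbd⟩ := specTRU S C k hCd
    obtain ⟨Q, q, hQ, hQd⟩ := hS.wa P hP (2 * k)
    obtain ⟨hQres, hqsupp, hqmem, hqonto, hqim, hqker⟩ := hQ
    -- degrees of the dual of `P`
    have hPdd : ∀ i, P.dual.deg i = C.deg (ρ i) + k := by
      intro i
      have := hPdeg i
      change - P.deg i = _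
      omega
    have hrange : ∀ x : C.I → S, (∀ i, x i ≠ 0 → C.deg i = k) → ∀ i, x i ≠ 0 → ∃ l, ρ l = i := by
      intro x hx i hi
      apply hsurj
      have := hx i hi
      omega
    have hsup : ∀ x' : P.dual.I → S, (∀ i, x' i ≠ 0 → P.dual.deg i = ((2 * k : ℕ) : ℤ)) →
        ∀ i, ez ρ x' i ≠ 0 → C.deg i = k := by
      intro x' hx' i hi
      by_cases h : ∃ l, ρ l = i
      · obtain ⟨l, rfl⟩ := h
        have h3 := hx' l fun h0 => hi ((ez_apply hρ x' l).trans h0)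
        have h4 := hPdd l
        push_cast at h3
        omega
      · exact absurd (ez_of_not _ _ h) hi
    -- (A)
    have hA : ∀ x' ∈ P.dual.Cy ((2 * k : ℕ) : ℤ), ez ρ x' ∈ C.Cy k := by
      rintro x' ⟨hx', hd'⟩
      refine ⟨hsup x' hx', ?_⟩
      refine (hcy k (by omega) (ez ρ x') (fun i hi => (hsup x' hx' i hi).ge)).2 ?_
      exact (congrArg (fun v : P.dual.I → S => P.dual.d *ᵥ v) (ez_comp hρ x')).trans hd'
    have hA' : ∀ x ∈ C.Cy k, x ∘ ρ ∈ P.dual.Cy ((2 * k : ℕ) : ℤ) := by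
      rintro x ⟨hx, hd'⟩
      refine ⟨?_, ?_⟩
      · intro l hl
        have h3 := hx (ρ l) hl
        have h4 := hPdd l
        push_cast
        omega
      · exact (hcy k (by omega) x (fun i hi => (hx i hi).ge)).1 hd'
    -- (B)
    have hB : ∀ x' ∈ P.dual.Bd ((2 * k : ℕ) : ℤ), ez ρ x' ∈ C.Bd k := by
      rintro x' ⟨hx', y, hy⟩
      refine ⟨hsup x' hx', ?_⟩
      exact (hbd k (by omega) (ez ρ x') (fun i hi => (hsup x' hx' i hi).ge)).2
        ⟨y, (ez_comp hρ x').trans hy⟩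
    -- (B')
    have hB' : ∀ x ∈ C.Bd k, x ∘ ρ ∈ P.dual.Bd ((2 * k : ℕ) : ℤ) := by
      rintro x ⟨hx, hy⟩
      refine ⟨?_, ?_⟩
      · intro l hl
        have h3 := hx (ρ l) hl
        have h4 := hPdd l
        push_cast
        omega
      · exact (hbd k (by omega) x (fun i hi => (hx i hi).ge)).1 hy
    have hg0 : ∀ y, em ρ q *ᵥ y = ez ρ (q *ᵥ y) := fun y => em_mulVec hρ q y
    refine ⟨Q, em ρ q, ⟨hQres, ?_, ?_, ?_, ?_, ?_⟩, hQd⟩
    · intro i j hij
      by_cases h : ∃ l, ρ l = i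
      · obtain ⟨l, rfl⟩ := h
        refine hqsupp l j fun h4 => hij ?_
        change ez ρ (fun l => q l j) (ρ l) = 0
        rw [ez_apply hρ]
        exact h4
      · exact absurd (ez_of_not _ _ h) hij
    · intro y
      rw [hg0]
      exact hA _ (hqmem y)
    · intro z hz
      obtain ⟨y, hy⟩ := hqonto (z ∘ ρ) (hA' z hz)
      refine ⟨y, ?_⟩
      have h5 := hB _ hy
      let zr : P.dual.I → S := z ∘ ρ
      have h6 : ez ρ (zr - q *ᵥ y) = ez ρ zr - ez ρ (q *ᵥ y) :=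
        @ez_sub S _ P.I C.I ρ hρ zr (q *ᵥ y)
      have h9 : ez ρ zr = z := ez_restrict hρ z (hrange z hz.1)
      rw [h9] at h6
      rw [hg0]
      have h7 : ez ρ (zr - q *ᵥ y) ∈ C.Bd k := h5
      rwa [h6] at h7
    · intro x
      rw [hg0]
      exact hB _ (hqim x)
    · intro y hy hyB
      refine hqker y hy ?_
      have h3 : (em ρ q *ᵥ y) ∘ ρ = q *ᵥ y := by
        funext l
        change (em ρ q *ᵥ y) (ρ l) = (q *ᵥ y) l
        rw [hg0]
        exact ez_apply hρ _ l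
      rw [← h3]
      exact hB' _ hyB

end Pool.Agent.Lib.MP8a3537.WAB
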