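import Pool.Agent.Lib.MP_8a3537_gt.WAB.Spec

/-!
# Weakly Auslander regular coherent rings: module `RSC`

Resolutions of `Z / B`, where `B ≤ Z` are finitely generated submodules of `S^m`; the cocycles and the
coboundaries of a given degree of a finite free complex are finitely generated.
-/

namespace Pool.Agent.Lib.MP8a3537.WAB

open Matrix Pool.Agent.Lib.MP8a3537.UV Pool.Agent.Lib.MP8a3537.AU Pool.Agent.Lib.MP8a3537.RO

namespace RSCAux

variable {S : Type} [Ring S]

theorem mulVec_eq_sum {m n : Type} [Fintype n] (s : n → m → S) (y : n → S) :
    (Matrix.of fun i j => s j i : Matrix m n S) *ᵥ y = ∑ j, MulOpposite.op (y j) • s j := by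
  ext i
  simp [Matrix.mulVec, dotProduct, Finset.sum_apply]

/-- The range of a matrix is the span of its columns. -/
theorem rng_eq_span {m n : Type} [Fintype n] (s : n → m → S) :
    rng (Matrix.of fun i j => s j i : Matrix m n S) = Submodule.span Sᵐᵒᵖ (Set.range s) := by
  ext x
  rw [Submodule.mem_span_range_iff_exists_fun]
  constructor
  · rintro ⟨y, hy⟩
    refine ⟨fun j => MulOpposite.op (y j), ?_⟩
    rw [hy, mulVec_eq_sum]
  · rintro ⟨c, hc⟩
    refine ⟨fun j => (c j).unop, ?_⟩
    rw [mulVec_eq_sum]
    simp [hc]

theorem rng_fg {m n : Type} [Fintype n] (z : Matrix m n S) : (rng z).FG := by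
  have h : z = Matrix.of fun i j => (fun (j : n) (i : m) => z i j) j i := rfl
  rw [h, rng_eq_span]
  exact Submodule.fg_span (Set.finite_range _)

theorem exists_rng {m : Type} {Z : Submodule Sᵐᵒᵖ (m → S)} (hZ : Z.FG) :
    ∃ (r : ℕ) (z : Matrix m (Fin r) S), Z = rng z := by
  obtain ⟨r, s, hs⟩ := Submodule.fg_iff_exists_fin_generating_family.1 hZ
  exact ⟨r, Matrix.of fun i j => s j i, by rw [rng_eq_span, hs]⟩

/-- Coherence for matrices with arbitrary finite index sets. -/
theorem coh' [StarRing S] {d : ℕ} (h : WAR S d) {m n : Type} [Fintype m] [Fintype n]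
    (M : Matrix m n S) :
    ∃ (r : ℕ) (K : Matrix n (Fin r) S), ∀ x : n → S, M *ᵥ x = 0 ↔ ∃ y, x = K *ᵥ y := by
  classical
  let em := Fintype.equivFin m
  let en := Fintype.equivFin n
  obtain ⟨r, K, hK⟩ := h.coh _ _ (M.submatrix em.symm en.symm)
  refine ⟨r, K.submatrix en id, fun x => ?_⟩
  have h1 : (M.submatrix em.symm en.symm) *ᵥ (x ∘ en.symm) = (M *ᵥ x) ∘ em.symm := by
    rw [Matrix.submatrix_mulVec_equiv]
    simp [Function.comp_assoc]
  have h2 : M *ᵥ x = 0 ↔ (M.submatrix em.symm en.symm) *ᵥ (x ∘ en.symm) = 0 := by
    rw [h1]
    constructor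
    · intro h
      rw [h]
      rfl
    · intro h
      funext i
      have := congrFun h (em i)
      simpa using this
  rw [h2, hK]
  constructor
  · rintro ⟨y, hy⟩
    refine ⟨y, ?_⟩
    funext i
    have := congrFun hy (en i)
    simpa [Matrix.mulVec, dotProduct] using this
  · rintro ⟨y, hy⟩
    refine ⟨y, ?_⟩
    funext i
    have := congrFun hy (en.symm i)
    simpa [Matrix.mulVec, dotProduct] using this

end RSCAux

open RSCAux

theorem specRSC : SpecRSC := by
  intro S _ _ d hS
  refine ⟨?_, ?_⟩
  · intro m _ B Z hBZ hB hZ
    obtain ⟨s, b, rfl⟩ := exists_rng hB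
    obtain ⟨r, z, rfl⟩ := exists_rng hZ
    obtain ⟨t, K, hK⟩ := coh' hS (Matrix.fromCols z b)
    let K1 : Matrix (Fin r) (Fin t) S := fun i j => K (Sum.inl i) j
    let K2 : Matrix (Fin s) (Fin t) S := fun i j => K (Sum.inr i) j
    have hK1 : ∀ y : Fin r → S, y ∈ rng K1 ↔ z *ᵥ y ∈ rng b := by
      intro y
      constructor
      · rintro ⟨c, rfl⟩
        have h1 := (hK (K *ᵥ c)).2 ⟨c, rfl⟩
        have h2 : K *ᵥ c = Sum.elim (K1 *ᵥ c) (K2 *ᵥ c) := by
          funext i
          rcases i with i | i <;> rfl
        rw [h2, Matrix.fromCols_mulVec_sumElim] at h1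
        refine ⟨-(K2 *ᵥ c), ?_⟩
        rw [mulVec_neg]
        exact eq_neg_of_add_eq_zero_left h1
      · rintro ⟨y', hy'⟩
        have h1 : Matrix.fromCols z b *ᵥ (Sum.elim y (-y')) = 0 := by
          rw [Matrix.fromCols_mulVec_sumElim, hy', mulVec_neg]
          abel
        obtain ⟨c, hc⟩ := (hK _).1 h1
        refine ⟨c, ?_⟩
        funext i
        exact congrFun hc (Sum.inl i)
    obtain ⟨J, q0, hq⟩ := hS.ffr r t K1
    refine ⟨J, z * q0, ?_⟩
    refine
      { res := hq.res
        supp := ?_
        mem := ?_
        onto := ?_
        im := ?_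
        ker := ?_ }
    · intro i j h
      rw [mul_apply] at h
      obtain ⟨l, _, hl⟩ := Finset.exists_ne_zero_of_sum_ne_zero h
      exact hq.supp l j (right_ne_zero_of_mul hl)
    · intro y
      exact ⟨q0 *ᵥ y, by rw [mulVec_mulVec]⟩
    · rintro v ⟨c, rfl⟩
      obtain ⟨y, hy⟩ := hq.onto c trivial
      refine ⟨y, ?_⟩
      rw [hK1] at hy
      rwa [mulVec_sub, mulVec_mulVec] at hy
    · intro x
      have h1 := hq.im x
      rw [hK1, mulVec_mulVec] at h1
      exact h1
    · intro y hy h
      apply hq.ker y hy
      rw [hK1, mulVec_mulVec]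
      exact h
  · intro C k
    classical
    constructor
    · let e : Matrix C.I C.I S := fun i j => if i = j ∧ C.deg i ≠ k then 1 else 0
      obtain ⟨t, K, hK⟩ := coh' hS (Matrix.fromRows C.d e)
      have h1 : C.Cy k = rng K := by
        ext x
        have h2 : x ∈ rng K ↔ ∃ y, x = K *ᵥ y := Iff.rfl
        rw [h2, ← hK]
        have he : ∀ i, (e *ᵥ x) i = if C.deg i ≠ k then x i else 0 := by
          intro i
          change ∑ j, (if i = j ∧ C.deg i ≠ k then (1 : S) else 0) * x j = _
          rw [Finset.sum_eq_single i]
          · by_cases h : C.deg i = k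
            · simp [h]
            · simp [h]
          · intro j _ hj
            rw [if_neg, zero_mul]
            rintro ⟨h, _⟩
            exact hj h.symm
          · intro h
            exact absurd (Finset.mem_univ _) h
        have hfr : Matrix.fromRows C.d e *ᵥ x = 0 ↔ C.d *ᵥ x = 0 ∧ e *ᵥ x = 0 := by
          rw [Matrix.fromRows_mulVec]
          constructor
          · intro h
            exact ⟨funext fun i => congrFun h (Sum.inl i), funext fun i => congrFun h (Sum.inr i)⟩
          · rintro ⟨h, h'⟩
            rw [h, h']
            funext i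
            rcases i with i | i <;> rfl
        rw [hfr]
        constructor
        · rintro ⟨hx, hx'⟩
          refine ⟨hx', ?_⟩
          funext i
          rw [he]
          by_cases h : C.deg i = k
          · simp [h]
          · have : x i = 0 := by
              by_contra h0
              exact h (hx i h0)
            simp [this]
        · rintro ⟨hx, hx'⟩
          refine ⟨?_, hx⟩
          intro i hi
          by_contra h
          have := congrFun hx' i
          rw [he, if_pos h] at this
          exact hi this
      rw [h1]
      exact rng_fg K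
    · let D : Matrix C.I C.I S := fun i j => if C.deg j = k - 1 then C.d i j else 0
      have h1 : C.Bd k = rng D := by
        ext x
        constructor
        · rintro ⟨hx, y, hy⟩
          refine ⟨y, ?_⟩
          funext i
          by_cases h : C.deg i = k
          · rw [hy]
            change ∑ j, C.d i j * y j = ∑ j, (if C.deg j = k - 1 then C.d i j else 0) * y j
            refine Finset.sum_congr rfl fun j _ => ?_
            by_cases hj : C.deg j = k - 1
            · rw [if_pos hj]
            · have : C.d i j = 0 := by
                by_contra h0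
                have := C.hd i j h0
                omega
              rw [if_neg hj, this]
          · have h2 : x i = 0 := by
              by_contra h0
              exact h (hx i h0)
            rw [h2]
            change 0 = ∑ j, (if C.deg j = k - 1 then C.d i j else 0) * y j
            symm
            refine Finset.sum_eq_zero fun j _ => ?_
            by_cases hj : C.deg j = k - 1
            · have : C.d i j = 0 := by
                by_contra h0
                have := C.hd i j h0
                omega
              rw [if_pos hj, this, zero_mul]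
            · rw [if_neg hj, zero_mul]
        · rintro ⟨y, rfl⟩
          refine ⟨?_, fun j => if C.deg j = k - 1 then y j else 0, ?_⟩
          · intro i hi
            change ∑ j, (if C.deg j = k - 1 then C.d i j else 0) * y j ≠ 0 at hi
            obtain ⟨j, _, hj⟩ := Finset.exists_ne_zero_of_sum_ne_zero hi
            have h2 := left_ne_zero_of_mul hj
            by_cases h3 : C.deg j = k - 1
            · rw [if_pos h3] at h2
              have := C.hd i j h2
              omega
            · rw [if_neg h3] at h2
              exact absurd rfl h2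
          · funext i
            change ∑ j, (if C.deg j = k - 1 then C.d i j else 0) * y j =
              ∑ j, C.d i j * (if C.deg j = k - 1 then y j else 0)
            refine Finset.sum_congr rfl fun j _ => ?_
            by_cases hj : C.deg j = k - 1
            · rw [if_pos hj, if_pos hj]
            · rw [if_neg hj, if_neg hj, zero_mul, mul_zero]
      rw [h1]
      exact rng_fg D

end Pool.Agent.Lib.MP8a3537.WAB
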