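import Pool.Agent.Lib.MP_8a3537_gt.WAB.Spec
import Pool.Agent.Lib.MP_8a3537_gt.RO.CMP
import Pool.Agent.Lib.MP_8a3537_gt.RO.SUM
import Pool.Agent.Lib.MP_8a3537_gt.RO.STA

/-!
# WAB, module SAW: step a
-/

namespace Pool.Agent.Lib.MP8a3537.WAB

open Matrix Pool.Agent.Lib.MP8a3537.UV Pool.Agent.Lib.MP8a3537.AU Pool.Agent.Lib.MP8a3537.RO
open Pool.Agent.Lib.MP8a3537.UO (ext)

namespace SAWAux

section

variable {R G : Type} [Ring R] [StarRing R] [Group G] {L : Subgroup G}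

/-- `(b a)^l` is a homogeneous chain map. -/
theorem wm_pow {Xa Xb : Set G} {ε : ℤˣ} {C : FC (MonoidAlgebra R L)}
    {a b : Matrix C.I C.I (MonoidAlgebra R G)} (hN : NF L Xa Xb ∅ ε C a 0 b) (l : ℕ) :
    WM C C ((b * a) ^ l) := by
  induction l with
  | zero =>
    refine ⟨fun i j hij => ?_, ?_⟩
    · rw [pow_zero] at hij
      by_cases h : i = j
      · rw [h]
      · rw [Matrix.one_apply_ne h] at hij
        exact absurd rfl hij
    · rw [pow_zero, Matrix.one_mul, Matrix.mul_one]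
  | succ l ih =>
    refine ⟨fun i j hij => ?_, ?_⟩
    · rw [pow_succ', Matrix.mul_apply] at hij
      obtain ⟨m, -, hm⟩ := Finset.exists_ne_zero_of_sum_ne_zero hij
      have h1 : (b * a) i m ≠ 0 := left_ne_zero_of_mul hm
      have h2 : ((b * a) ^ l) m j ≠ 0 := right_ne_zero_of_mul hm
      rw [Matrix.mul_apply] at h1
      obtain ⟨n, -, hn⟩ := Finset.exists_ne_zero_of_sum_ne_zero h1
      have e1 := hN.gb i n (left_ne_zero_of_mul hn)
      have e2 := hN.ga n m (right_ne_zero_of_mul hn)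
      have e3 := ih.gw m j h2
      omega
    · have h1 : (b * a) * ext C.d = ext C.d * (b * a) := by
        rw [Matrix.mul_assoc, hN.ca, ← Matrix.mul_assoc, hN.cb, Matrix.mul_assoc]
      rw [pow_succ', Matrix.mul_assoc, ih.cw, ← Matrix.mul_assoc, h1, Matrix.mul_assoc]

/-- The generators of `ZW` are cocycles, and so is `ZW`. -/
theorem zw_le {C T : FC (MonoidAlgebra R L)} {w : Matrix T.I C.I (MonoidAlgebra R G)}
    (hw : WM C T w) (k : ℤ) : ZW C T k w ≤ T.Cy k := by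
  unfold ZW
  refine sup_le ?_ ?_
  · rintro x ⟨hx, y, rfl⟩
    refine ⟨hx, ?_⟩
    rw [mulVec_mulVec, T.dd, zero_mulVec]
  · rw [Submodule.span_le]
    rintro z ⟨x, hx, t, rfl⟩
    refine STAAux.lres_cy T k _ ?_ ?_ t
    · intro i hi
      obtain ⟨j, hj, hj'⟩ := STAAux.ne_mulVec hi
      rw [hw.gw i j hj]
      apply hx.1 j
      intro h0
      apply hj'
      change MonoidAlgebra.mapDomainRingHom R L.subtype (x j) = 0
      rw [h0, map_zero]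
    · rw [mulVec_mulVec, ← hw.cw, ← mulVec_mulVec, ← STEAux.exv_mulVec, hx.2]
      rw [show (exv (G := G) (0 : C.I → MonoidAlgebra R L)) = 0 from LVLAux.exv_zero,
        mulVec_zero]

omit [StarRing R] in
theorem mem_zw {C T : FC (MonoidAlgebra R L)} {w : Matrix T.I C.I (MonoidAlgebra R G)} {k : ℤ}
    {x : C.I → MonoidAlgebra R L} (hx : x ∈ C.Cy k) (t : G) :
    (fun i => lres L t ((w *ᵥ exv x) i)) ∈ ZW C T k w :=
  Submodule.mem_sup_right (Submodule.subset_span ⟨x, hx, t, rfl⟩)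

end

end SAWAux

open SAWAux in
/-- **SAW**: step a. -/
theorem specSAW (hMRS : SpecMRS) (hGRD : SpecGRD) (hRDW : SpecRDW) (hSRW : SpecSRW) :
    SpecSAW := by
  intro R G _ _ _ L g Xa Xb Y hL ε d hW C a b k l hN hC hD hQ
  have hw : WM C C ((b * a) ^ l) := wm_pow hN l
  obtain ⟨Q0, g0, hR0, hQ0⟩ := hMRS (MonoidAlgebra R L) d hW C k hC hD
  obtain ⟨J, q, hJ, hJ2⟩ := hGRD R G L d hW C C k ((b * a) ^ l) hw (2 * k) Q0 g0 hR0 hQ0
  have hZ : ZW C C k ((b * a) ^ l) ≤ C.Cy k := zw_le hw k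
  have hRD := hRDW (MonoidAlgebra R L) C k (ZW C C k ((b * a) ^ l)) hC hZ J q hJ hJ2
  have hZK : ZW C C k ((b * a) ^ l) ≤ Ker C a 0 k := by
    have h0 : ∀ z : C.I → MonoidAlgebra R L, ∃ u : C.I → MonoidAlgebra R G,
        (0 : Matrix C.I C.I (MonoidAlgebra R G)) *ᵥ exv z = ext C.d *ᵥ u :=
      fun z => ⟨0, by rw [zero_mulVec, mulVec_zero]⟩
    refine sup_le ?_ ?_
    · rintro z ⟨hz, y, rfl⟩
      refine ⟨⟨hz, by rw [mulVec_mulVec, C.dd, zero_mulVec]⟩, ⟨a *ᵥ exv y, ?_⟩, h0 _⟩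
      rw [STEAux.exv_mulVec, mulVec_mulVec, mulVec_mulVec, hN.ca]
    · rw [Submodule.span_le]
      rintro z ⟨x, hx, t, rfl⟩
      obtain ⟨h1, h2, h3⟩ := STAAux.iter hL hN (k : ℤ) x hx l
      obtain ⟨u0, hu0⟩ := hQ x hx
      refine ⟨STAAux.lres_cy C (k : ℤ) _ h2 h3 t, ?_, h0 _⟩
      obtain ⟨u1, hu1⟩ := specCMP R G L Xa Y hL.al hL.ar hL.yl (STAAux.disj hL) _ _ _ C.dᴴ a
        ((b * a) ^ l *ᵥ exv (G := G) x) hN.sa h1 ⟨u0, by rw [hu0, LVLAux.ext_star]⟩ t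
      exact ⟨u1, by rw [hu1, LVLAux.ext_star]⟩
  obtain ⟨C', a', b', p, S⟩ := hSRW R G L Xa Xb ε hL.al hL.ar hL.ai hL.an C a b k
    (ZW C C k ((b * a) ^ l)) hN hC hD hZK hRD
  refine ⟨C', a', b', S.nf, S.lv, S.lv', ?_, S.good⟩
  intro x' hx'
  obtain ⟨x, hx, rfl⟩ := S.top x' hx'
  have key : ∃ u : C'.I → MonoidAlgebra R G,
      ext p *ᵥ ((b * a) ^ l *ᵥ exv (G := G) x) = ext C'.d *ᵥ u := by
    refine specSUM R G L _ _ _ C'.d (ext p) _ fun t => ?_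
    obtain ⟨u2, hu2⟩ := S.kill _ (mem_zw (w := (b * a) ^ l) hx t)
    exact ⟨exv u2, by rw [← STEAux.exv_mulVec, hu2, STEAux.exv_mulVec]⟩
  obtain ⟨u, hu⟩ := key
  refine ⟨u, ?_⟩
  rw [← hu, STEAux.exv_mulVec, mulVec_mulVec, mulVec_mulVec,
    STAAux.comm_pow a b a' b' (ext p) S.ea S.eb l]

end Pool.Agent.Lib.MP8a3537.WAB
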