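import Pool.Agent.Lib.MP_8a3537_gt.WAB.Spec
import Pool.Agent.Lib.MP_8a3537_gt.RO.SWB
import Pool.Agent.Lib.MP_8a3537_gt.RO.SUB

/-!
# WAB, module SBW: a surgery on the dual which kills a given submodule
-/

namespace Pool.Agent.Lib.MP8a3537.WAB

open Matrix Pool.Agent.Lib.MP8a3537.UV Pool.Agent.Lib.MP8a3537.AU Pool.Agent.Lib.MP8a3537.RO
open Pool.Agent.Lib.MP8a3537.UO (ext)

open RO.SUBM in
/-- **Module SBW**: a surgery on the dual. -/
theorem specSBW (hSRW : SpecSRW) : SpecSBW := by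
  have hSWB : SpecSWB := specSWB
  intro R G _ _ _ L Xa Xb ε bl br bi bn C a b k Z hnf hlv hlv' hZ hRD
  obtain ⟨hnf1, hgood1⟩ := hSWB R G L Xa Xb ε C a b hnf
  obtain ⟨C', b', a', p, hs⟩ :
      ∃ (C' : FC (MonoidAlgebra R L)) (a' b' : Matrix C'.I C'.I (MonoidAlgebra R G))
        (p : Matrix C'.I C.I (MonoidAlgebra R L)),
        SurW Xb Xa ε (k : ℤ) C.dual C' b a a' b' p Z :=
    hSRW R G L Xb Xa ε bl br bi bn C.dual b a k Z hnf1 hlv' (exBelow_dual_dual C k hlv) hZ hRD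
  obtain ⟨hnf2, hgood2⟩ := hSWB R G L Xb Xa ε C' b' a' hs.nf
  have hCd : (ext (G := G) C.dual.d)ᴴ = ext C.d := ext_star' C.d
  have hC1d : ext (G := G) C'.dual.d = (ext C'.d)ᴴ := ext_star C'.d
  have hq : ext (G := G) pᴴ = (ext p)ᴴ := ext_star p
  have hq' : (ext (G := G) pᴴ)ᴴ = ext p := ext_star' p
  refine ⟨C'.dual, a', b', pᴴ, ?_⟩
  constructor
  · exact hnf2
  · exact hs.lv'
  · exact exBelow_dual_dual C' k hs.lv
  · intro i j h
    have h1 : p j i ≠ 0 := by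
      intro h0
      apply h
      rw [conjTranspose_apply, h0, star_zero]
    have h2 : C'.deg j = - C.deg i := hs.gp j i h1
    change C.deg i = - C'.deg j
    omega
  · have h1 : C'.d * p = p * C.dᴴ := hs.ch
    have h2 := congrArg conjTranspose h1
    rw [conjTranspose_mul, conjTranspose_mul, conjTranspose_conjTranspose] at h2
    exact h2.symm
  · have h1 : (ext (G := G) p)ᴴ * b' * ext p = b := hs.ea
    have h2 : ext (G := G) pᴴ * b' * (ext (G := G) pᴴ)ᴴ = b := by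
      rw [hq', hq]
      exact h1
    exact h2
  · have h1 : a' = ext (G := G) p * a * (ext (G := G) p)ᴴ := hs.eb
    have h2 : a' = (ext (G := G) pᴴ)ᴴ * a * ext (G := G) pᴴ := by
      rw [hq', hq]
      exact h1
    exact h2
  · intro y' hy'
    obtain ⟨y, hy, e⟩ := hs.top y' (mem_cy_dual_dual C' k y' hy')
    refine ⟨y, hy, ?_⟩
    rw [conjTranspose_conjTranspose]
    exact e
  · rintro y hy
    obtain ⟨v, hv⟩ := hs.kill y hy
    refine ⟨v, ?_⟩
    rw [conjTranspose_conjTranspose]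
    have h1 : (C'.dual.d)ᴴ = C'.d := conjTranspose_conjTranspose C'.d
    rw [h1]
    exact hv
  · rintro x hx h0 ⟨u, hu⟩
    have h1 : (ext (G := G) p)ᴴ *ᵥ x = ext C.d *ᵥ u := by
      rw [← hq]
      exact hu
    have h2 : (ext (G := G) p)ᴴ *ᵥ x = (ext (G := G) C.dual.d)ᴴ *ᵥ u := by
      rw [hCd]
      exact h1
    obtain ⟨v, hv⟩ := hs.inj x (fun i hi => hx i hi) (by rw [← hC1d]; exact h0) ⟨u, h2⟩
    exact ⟨v, by rw [hC1d]; exact hv⟩
  · intro h
    exact hgood1 (hs.good (hgood2 h))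

end Pool.Agent.Lib.MP8a3537.WAB
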