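import Pool.Agent.Lib.MP_8a3537_gt.WAB.Spec
import Pool.Agent.Lib.MP_8a3537_gt.AU.CNE
import Pool.Agent.Lib.MP_8a3537_gt.AU.CNF
import Pool.Agent.Lib.MP_8a3537_gt.AU.GDS
import Pool.Agent.Lib.MP_8a3537_gt.AU.FLT

/-!
# WAB, module SRW: a surgery which kills a given submodule
-/

namespace Pool.Agent.Lib.MP8a3537.WAB

open Matrix Pool.Agent.Lib.MP8a3537.UV Pool.Agent.Lib.MP8a3537.AU Pool.Agent.Lib.MP8a3537.RO
open Pool.Agent.Lib.MP8a3537.UO (ext)

namespace SRWAux

variable {R G : Type} [Ring R] [Group G] {L : Subgroup G}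

theorem ext_one {n : Type} [DecidableEq n] :
    ext (G := G) (1 : Matrix n n (MonoidAlgebra R L)) = 1 :=
  Matrix.map_one _ (map_zero _) (map_one _)

theorem ext_rows {m₁ m₂ n : Type} (A : Matrix m₁ n (MonoidAlgebra R L))
    (B : Matrix m₂ n (MonoidAlgebra R L)) :
    ext (G := G) (fromRows A B) = fromRows (ext A) (ext B) := by
  ext1 i j
  rcases i with i | i <;> rfl

theorem eq_zero_of_supp_empty {m n : Type} {M : Matrix m n (MonoidAlgebra R G)}
    (h : SuppIn (∅ : Set G) M) : M = 0 := by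
  ext i j g
  by_contra hg
  exact h i j g hg

/-- The inclusion of `C` in the cone. -/
theorem ext_p (I K : Type) [Fintype I] [DecidableEq I] :
    ext (G := G) (fromRows (1 : Matrix I I (MonoidAlgebra R L))
      (0 : Matrix K I (MonoidAlgebra R L))) =
      fromRows (1 : Matrix I I (MonoidAlgebra R G)) (0 : Matrix K I (MonoidAlgebra R G)) := by
  rw [ext_rows, ext_one, CNFAux.ext_zero]

variable [StarRing R]

theorem ext_p_star (I K : Type) [Fintype I] [DecidableEq I] :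
    (ext (G := G) (fromRows (1 : Matrix I I (MonoidAlgebra R L))
      (0 : Matrix K I (MonoidAlgebra R L))))ᴴ =
      fromCols (1 : Matrix I I (MonoidAlgebra R G)) (0 : Matrix I K (MonoidAlgebra R G)) := by
  rw [ext_p, conjTranspose_fromRows_eq_fromCols_conjTranspose, conjTranspose_one,
    conjTranspose_zero]

end SRWAux

open SRWAux in
/-- **Module SRW**: a surgery. -/
theorem specSRW (hEXW : SpecEXW) : SpecSRW := by
  rintro R G _ _ _ L Xa Xb ε hl hr hi hn C a b k Z hN hC hD hZ ⟨J, g, h⟩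
  obtain ⟨f, t, hE⟩ := hEXW R G L Xa Xb ε C J a b k Z g hr hl hi hn hN hC hD hZ h
  have hN' := specCNF R G L Xa Xb ∅ ε C J a 0 b k _ g f 0 t h hi hN hE
  have hG := specGDS R G L Xa Xb ∅ ε C J a 0 b k _ g f 0 t h hi hn hN hE
  rw [fromBlocks_zero] at hN' hG
  obtain ⟨hC', hD'⟩ := specCNE.1 _ C J k _ g h hC hD
  have hdds : (ext (G := G) (fromBlocks C.d g 0 J.d))ᴴ =
      fromBlocks (ext C.d)ᴴ 0 (ext g)ᴴ (ext J.d)ᴴ := by
    rw [CNFAux.ext_blocks, CNFAux.ext_zero, fromBlocks_conjTranspose, conjTranspose_zero]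
  have hinj : ∀ y : C.I ⊕ J.I → MonoidAlgebra R G,
      (∀ i, y i ≠ 0 → - Sum.elim C.deg (fun j => J.deg j - 1) i = (k : ℤ)) →
      fromBlocks (ext (G := G) C.d)ᴴ 0 (ext g)ᴴ (ext J.d)ᴴ *ᵥ y = 0 →
      (∃ u, fromCols (1 : Matrix C.I C.I (MonoidAlgebra R G))
        (0 : Matrix C.I J.I (MonoidAlgebra R G)) *ᵥ y = (ext C.d)ᴴ *ᵥ u) →
      ∃ u, y = fromBlocks (ext (G := G) C.d)ᴴ 0 (ext g)ᴴ (ext J.d)ᴴ *ᵥ u := by
    rintro y hy hdy ⟨u, hu⟩
    rw [fromBlocks_mulVec] at hdy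
    rw [fromCols_mulVec] at hu
    rw [one_mulVec, zero_mulVec, add_zero] at hu
    have h1 : (ext (G := G) g)ᴴ *ᵥ (y ∘ Sum.inl) + (ext J.d)ᴴ *ᵥ (y ∘ Sum.inr) = 0 := by
      funext j
      exact congrFun hdy (Sum.inr j)
    have hA : ExA (G := G) J.dual (k : ℤ) Set.univ :=
      specFLT R G L Set.univ J.dual k (fun _ _ _ _ => Set.mem_univ _) h.g4
    obtain ⟨u', v', hu', hv'⟩ := specCNE.2 R G L C J k _ g h hA (y ∘ Sum.inl) (y ∘ Sum.inr)
      (fun i hi => hy (Sum.inl i) hi)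
      (fun j hj => by
        have h2 := hy (Sum.inr j) hj
        simp only [Sum.elim_inr] at h2
        omega) h1 ⟨u, hu⟩
    refine ⟨Sum.elim u' v', ?_⟩
    rw [fromBlocks_mulVec, Sum.elim_comp_inl, Sum.elim_comp_inr, zero_mulVec, add_zero,
      ← hu', ← hv']
    funext i
    rcases i with i | j <;> rfl
  have htop : ∀ x' : C.I ⊕ J.I → MonoidAlgebra R L,
      (∀ i, x' i ≠ 0 → Sum.elim C.deg (fun j => J.deg j - 1) i = (k : ℤ)) →
      fromBlocks C.d g 0 J.d *ᵥ x' = 0 →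
      ∃ x ∈ C.Cy k, x' = fromRows (1 : Matrix C.I C.I (MonoidAlgebra R L))
        (0 : Matrix J.I C.I (MonoidAlgebra R L)) *ᵥ x := by
    intro x' hx1 hx2
    have hz : ∀ j : J.I, x' (Sum.inr j) = 0 := by
      intro j
      by_contra hj
      have h1 := hx1 (Sum.inr j) hj
      have h2 := h.dk j
      simp only [Sum.elim_inr] at h1
      omega
    refine ⟨fun i => x' (Sum.inl i), ⟨fun i hi => hx1 (Sum.inl i) hi, ?_⟩, ?_⟩
    · rw [fromBlocks_mulVec] at hx2
      have h4 : (x' ∘ Sum.inr) = (0 : J.I → MonoidAlgebra R L) := funext hz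
      funext i
      have h5 := congrFun hx2 (Sum.inl i)
      rw [h4, mulVec_zero, add_zero] at h5
      exact h5
    · rw [fromRows_mulVec, one_mulVec, zero_mulVec]
      funext i
      rcases i with i | j
      · rfl
      · exact hz j
  have hgp : ∀ (i : C.I ⊕ J.I) (j : C.I), (fromRows (1 : Matrix C.I C.I (MonoidAlgebra R L))
      (0 : Matrix J.I C.I (MonoidAlgebra R L))) i j ≠ 0 →
      Sum.elim C.deg (fun j => J.deg j - 1) i = C.deg j := by
    rintro (i | i) j hij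
    · have h1 : i = j := by
        by_contra hne
        exact hij (by rw [fromRows_apply_inl, Matrix.one_apply_ne hne])
      subst h1
      rfl
    · exact absurd rfl hij
  have hch : fromBlocks C.d g 0 J.d * fromRows (1 : Matrix C.I C.I (MonoidAlgebra R L))
      (0 : Matrix J.I C.I (MonoidAlgebra R L)) =
      (fromRows (1 : Matrix C.I C.I (MonoidAlgebra R L))
      (0 : Matrix J.I C.I (MonoidAlgebra R L)) : Matrix (C.I ⊕ J.I) C.I (MonoidAlgebra R L)) *
        C.d := by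
    rw [fromBlocks_mul_fromRows, fromRows_mul]
    simp only [Matrix.mul_one, Matrix.mul_zero, add_zero, Matrix.one_mul, Matrix.zero_mul]
  have hea : (ext (G := G) (fromRows (1 : Matrix C.I C.I (MonoidAlgebra R L))
      (0 : Matrix J.I C.I (MonoidAlgebra R L))))ᴴ * newa ε a f t *
      ext (fromRows (1 : Matrix C.I C.I (MonoidAlgebra R L))
      (0 : Matrix J.I C.I (MonoidAlgebra R L))) = a := by
    rw [ext_p_star, ext_p]
    unfold newa
    rw [fromCols_mul_fromBlocks, fromCols_mul_fromRows]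
    simp only [Matrix.one_mul, Matrix.zero_mul, add_zero, Matrix.mul_one, Matrix.mul_zero]
  have heb : fromBlocks b (0 : Matrix C.I J.I (MonoidAlgebra R G)) 0 0 =
      ext (G := G) (fromRows (1 : Matrix C.I C.I (MonoidAlgebra R L))
      (0 : Matrix J.I C.I (MonoidAlgebra R L))) * b *
      (ext (G := G) (fromRows (1 : Matrix C.I C.I (MonoidAlgebra R L))
      (0 : Matrix J.I C.I (MonoidAlgebra R L))))ᴴ := by
    rw [ext_p_star, ext_p, fromRows_mul, fromRows_mul_fromCols]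
    simp only [Matrix.one_mul, Matrix.zero_mul, Matrix.mul_one, Matrix.mul_zero]
  have hkill : ∀ x ∈ Z,
      ∃ u, fromRows (1 : Matrix C.I C.I (MonoidAlgebra R L))
        (0 : Matrix J.I C.I (MonoidAlgebra R L)) *ᵥ x = fromBlocks C.d g 0 J.d *ᵥ u := by
    rintro x hx
    obtain ⟨y, hy, w, hw⟩ := h.g3' x hx
    have hJ : J.d *ᵥ y = 0 := by
      funext i
      by_contra hi'
      obtain ⟨j, hj, hj'⟩ := CNEAux.mul_supp J.d hi'
      have h1 := J.hd i j hj
      have h2 := hy j hj'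
      have h3 := h.dk i
      omega
    refine ⟨Sum.elim w y, ?_⟩
    rw [fromRows_mulVec, one_mulVec, zero_mulVec, fromBlocks_mulVec, Sum.elim_comp_inl,
      Sum.elim_comp_inr, zero_mulVec, hJ, zero_add, hw, add_comm (g *ᵥ y)]
  have hinj2 : ∀ y : C.I ⊕ J.I → MonoidAlgebra R G,
      (∀ i, y i ≠ 0 → - Sum.elim C.deg (fun j => J.deg j - 1) i = (k : ℤ)) →
      (ext (G := G) (fromBlocks C.d g 0 J.d))ᴴ *ᵥ y = 0 →
      (∃ u, (ext (G := G) (fromRows (1 : Matrix C.I C.I (MonoidAlgebra R L))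
        (0 : Matrix J.I C.I (MonoidAlgebra R L))))ᴴ *ᵥ y = (ext C.d)ᴴ *ᵥ u) →
      ∃ u, y = (ext (G := G) (fromBlocks C.d g 0 J.d))ᴴ *ᵥ u := by
    rw [hdds, ext_p_star]
    exact hinj
  exact ⟨cone C J g h.gg h.cg, newa ε a f t, fromBlocks b 0 0 0,
    fromRows (1 : Matrix C.I C.I (MonoidAlgebra R L)) (0 : Matrix J.I C.I (MonoidAlgebra R L)),
    { nf := hN'
      lv := hC'
      lv' := hD'
      gp := hgp
      ch := hch
      ea := hea
      eb := heb
      top := fun x' hx' => htop x' hx'.1 hx'.2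
      kill := hkill
      inj := hinj2
      good := hG }⟩

end Pool.Agent.Lib.MP8a3537.WAB
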