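import Pool.Agent.Lib.MP_8a3537_gt.WAB.Spec
import Pool.Agent.Lib.MP_8a3537_gt.RO.CMP
import Pool.Agent.Lib.MP_8a3537_gt.RO.SUM
import Pool.Agent.Lib.MP_8a3537_gt.RO.STA
import Pool.Agent.Lib.MP_8a3537_gt.RO.STB

/-!
# WAB, module STW: step b
-/

namespace Pool.Agent.Lib.MP8a3537.WAB

open Matrix Pool.Agent.Lib.MP8a3537.UV Pool.Agent.Lib.MP8a3537.AU Pool.Agent.Lib.MP8a3537.RO
open Pool.Agent.Lib.MP8a3537.UO (ext)

namespace STWAux

section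

variable {R G : Type} [Ring R] [StarRing R] [Group G] {L : Subgroup G}

theorem ba_pow {Xa Xb : Set G} {ε : ℤˣ} {C : FC (MonoidAlgebra R L)}
    {a b : Matrix C.I C.I (MonoidAlgebra R G)} (hN : NF L Xa Xb ∅ ε C a 0 b) (l : ℕ) :
    (∀ i j, ((b * a) ^ l) i j ≠ 0 → C.deg i = C.deg j) ∧
      (b * a) ^ l * ext C.d = ext C.d * (b * a) ^ l := by
  induction l with
  | zero =>
    refine ⟨fun i j hij => ?_, ?_⟩
    · rw [pow_zero] at hij
      by_cases h : i = j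
      · rw [h]
      · rw [Matrix.one_apply_ne h] at hij
        exact absurd rfl hij
    · rw [pow_zero, Matrix.one_mul, Matrix.mul_one]
  | succ l ih =>
    refine ⟨fun i j hij => ?_, ?_⟩
    · rw [pow_succ', Matrix.mul_apply] at hij
      obtain ⟨m, -, hm⟩ := Finset.exists_ne_zero_of_sum_ne_zero hij
      have h1 : (b * a) i m ≠ 0 := left_ne_zero_of_mul hm
      have h2 : ((b * a) ^ l) m j ≠ 0 := right_ne_zero_of_mul hm
      rw [Matrix.mul_apply] at h1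
      obtain ⟨n, -, hn⟩ := Finset.exists_ne_zero_of_sum_ne_zero h1
      have e1 := hN.gb i n (left_ne_zero_of_mul hn)
      have e2 := hN.ga n m (right_ne_zero_of_mul hn)
      have e3 := ih.1 m j h2
      omega
    · rw [pow_succ', Matrix.mul_assoc, ih.2, ← Matrix.mul_assoc, STBAux.ba_comm hN,
        Matrix.mul_assoc]

/-- `a (b a)^l` is a homogeneous chain map to the dual. -/
theorem wm_aba {Xa Xb : Set G} {ε : ℤˣ} {C : FC (MonoidAlgebra R L)}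
    {a b : Matrix C.I C.I (MonoidAlgebra R G)} (hN : NF L Xa Xb ∅ ε C a 0 b) (l : ℕ) :
    WM C C.dual (a * (b * a) ^ l) := by
  obtain ⟨h1, h2⟩ := ba_pow hN l
  have k1 : ∀ i j : C.I, (a * (b * a) ^ l) i j ≠ 0 → - C.deg i = C.deg j := by
    intro i j hij
    rw [Matrix.mul_apply] at hij
    obtain ⟨m, -, hm⟩ := Finset.exists_ne_zero_of_sum_ne_zero hij
    have e1 := hN.ga i m (left_ne_zero_of_mul hm)
    have e2 := h1 m j (right_ne_zero_of_mul hm)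
    omega
  have k2 : a * (b * a) ^ l * ext C.d = ext C.dᴴ * (a * (b * a) ^ l) := by
    rw [Matrix.mul_assoc, h2, ← Matrix.mul_assoc, hN.ca, Matrix.mul_assoc, LVLAux.ext_star]
  exact ⟨k1, k2⟩

theorem ker1 {Xa Xb : Set G} {ε : ℤˣ} {C : FC (MonoidAlgebra R L)}
    {a b : Matrix C.I C.I (MonoidAlgebra R G)} (hN : NF L Xa Xb ∅ ε C a 0 b)
    (y : C.I → MonoidAlgebra R L) :
    b *ᵥ exv (C.dᴴ *ᵥ y) = (ext C.dᴴ : Matrix C.I C.I (MonoidAlgebra R G))ᴴ *ᵥ (b *ᵥ exv y) := by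
  rw [LVLAux.ext_star, conjTranspose_conjTranspose, ← NLKAux.ext_exv, mulVec_mulVec,
    mulVec_mulVec, ← LVLAux.ext_star, hN.cb]

theorem ker2 {C : FC (MonoidAlgebra R L)} {v u : C.I → MonoidAlgebra R G}
    (h : v = ext C.d *ᵥ u) :
    v = (ext C.dᴴ : Matrix C.I C.I (MonoidAlgebra R G))ᴴ *ᵥ u := by
  rw [LVLAux.ext_star, conjTranspose_conjTranspose, h]

theorem ker3 {C : FC (MonoidAlgebra R L)} {b : Matrix C.I C.I (MonoidAlgebra R G)} {k : ℤ}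
    {z : C.I → MonoidAlgebra R L} (hz : z ∈ C.dual.Cy k) {u : C.I → MonoidAlgebra R G}
    (hu : b *ᵥ exv z = ext C.d *ᵥ u) : z ∈ Ker (G := G) C.dual b 0 k := by
  have h1 : (0 : Matrix C.I C.I (MonoidAlgebra R G)) *ᵥ exv z =
      ext C.dᴴ *ᵥ (0 : C.I → MonoidAlgebra R G) := by rw [zero_mulVec, mulVec_zero]
  have h2 : b *ᵥ exv z = (ext C.dᴴ : Matrix C.I C.I (MonoidAlgebra R G))ᴴ *ᵥ u :=
    ker2 (C := C) hu
  exact ⟨hz, ⟨u, h2⟩, ⟨0, h1⟩⟩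

omit [StarRing R] in
/-- The generators of `ZW` are cocycles, and so is `ZW`. -/
theorem zw_le {C T : FC (MonoidAlgebra R L)} {w : Matrix T.I C.I (MonoidAlgebra R G)}
    (hw : WM C T w) (k : ℤ) : ZW C T k w ≤ T.Cy k := by
  unfold ZW
  refine sup_le ?_ ?_
  · rintro x ⟨hx, y, rfl⟩
    refine ⟨hx, ?_⟩
    rw [mulVec_mulVec, T.dd, zero_mulVec]
  · rw [Submodule.span_le]
    rintro z ⟨x, hx, t, rfl⟩
    refine STAAux.lres_cy T k _ ?_ ?_ t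
    · intro i hi
      obtain ⟨j, hj, hj'⟩ := STAAux.ne_mulVec hi
      rw [hw.gw i j hj]
      exact hx.1 j (NLKAux.exv_ne hj')
    · rw [mulVec_mulVec, ← hw.cw, ← mulVec_mulVec, NLKAux.ext_exv, hx.2, NLKAux.exv_zero,
        mulVec_zero]

omit [StarRing R] in
theorem mem_zw {C T : FC (MonoidAlgebra R L)} {w : Matrix T.I C.I (MonoidAlgebra R G)} {k : ℤ}
    {x : C.I → MonoidAlgebra R L} (hx : x ∈ C.Cy k) (t : G) :
    (fun i => lres L t ((w *ᵥ exv x) i)) ∈ ZW C T k w :=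
  Submodule.mem_sup_right (Submodule.subset_span ⟨x, hx, t, rfl⟩)

end

section

variable {G : Type} [Group G] {L : Subgroup G} {g : G} {Xa Xb Y : Set G}

theorem aa_mem (h : Loc L g Xa Xb Y) {x x' : G} (hx : x ∈ Xa) (hx' : x' ∈ Xa) :
    x⁻¹ * x' ∈ L := by
  obtain ⟨l', hl', rfl⟩ := (h.ag x').1 hx'
  obtain ⟨l2, hl2, h2⟩ := (h.ag (x⁻¹ * l')).1 (h.ar l' hl' x⁻¹ (h.ai x hx))
  rw [← mul_assoc, h2, mul_assoc]
  exact L.mul_mem hl2 (STAAux.gg_mem h)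

theorem disj2 (h : Loc L g Xa Xb Y) : Disj L Xb {y | ∃ x ∈ Xa, ∃ t ∈ Y, y = x * t} := by
  rintro z hz z' hz' _ ⟨x, hx, t, ht, rfl⟩ _ ⟨x', hx', t', ht', rfl⟩ he
  have h1 : t' * t⁻¹ ∈ L := by
    refine h.dj z hz z' hz' x hx x' hx' t ht t' ht' ?_
    rw [mul_assoc, he, mul_assoc]
  have h2 : (x * (t' * t⁻¹)⁻¹)⁻¹ ∈ Xa := h.ai _ (h.ar _ (L.inv_mem h1) x hx)
  have h3 := aa_mem h h2 (h.ai x' hx')
  have h4 : z⁻¹ * z' = (x * (t' * t⁻¹)⁻¹)⁻¹⁻¹ * x'⁻¹ := by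
    have h5 : z' = z * x * t * t'⁻¹ * x'⁻¹ := by
      rw [eq_mul_inv_iff_mul_eq, eq_mul_inv_iff_mul_eq, mul_assoc z x t, he]
      group
    rw [h5]
    group
  rw [h4]
  exact h3

end

end STWAux

open STWAux in
/-- **STW**: step b. -/
theorem specSTW (hMRS : SpecMRS) (hGRD : SpecGRD) (hRDW : SpecRDW) (hSBW : SpecSBW) :
    SpecSTW := by
  intro R G _ _ _ L g Xa Xb Y hL ε d hW C a b k l hN hC hD hPL
  have hw : WM C C.dual (a * (b * a) ^ l) := wm_aba hN l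
  obtain ⟨Q0, g0, hR0, hQ0⟩ := hMRS (MonoidAlgebra R L) d hW C k hC hD
  obtain ⟨J, q0, hJ, hJ2⟩ := hGRD R G L d hW C C.dual k (a * (b * a) ^ l) hw (2 * k) Q0 g0
    hR0 hQ0
  have hZ : ZW C C.dual k (a * (b * a) ^ l) ≤ C.dual.Cy k := zw_le hw k
  have hRD := hRDW (MonoidAlgebra R L) C.dual k (ZW C C.dual k (a * (b * a) ^ l)) hD hZ J q0
    hJ hJ2
  have hZK : ZW C C.dual k (a * (b * a) ^ l) ≤ Ker (G := G) C.dual b 0 k := by
    refine sup_le ?_ ?_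
    · rintro z ⟨hz, y, rfl⟩
      have h1 : b *ᵥ exv (C.dᴴ *ᵥ y) = ext C.d *ᵥ (b *ᵥ exv (G := G) y) := by
        have h2 := ker1 hN y
        rwa [LVLAux.ext_star, conjTranspose_conjTranspose] at h2
      have h3 : C.dual.d *ᵥ y ∈ C.dual.Cy k :=
        ⟨hz, by rw [mulVec_mulVec, C.dual.dd, zero_mulVec]⟩
      exact ker3 h3 h1
    · rw [Submodule.span_le]
      rintro z ⟨x, hx, t, rfl⟩
      have hcy : STBAux.CyG C k ((b * a) ^ l *ᵥ exv (G := G) x) :=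
        STBAux.cyG_pow hN (STBAux.cyG_exv hx) l
      have hsp : SuppV Y ((b * a) ^ l *ᵥ exv (G := G) x) := STBAux.supp_pow hL hN x l
      have h1 : SuppV {y | ∃ x ∈ Xa, ∃ t ∈ Y, y = x * t} (a *ᵥ ((b * a) ^ l *ᵥ exv (G := G) x)) :=
        STAAux.supp_mulVec hN.sa hsp fun x hx y hy => ⟨x, hx, y, hy, rfl⟩
      obtain ⟨u0, hu0⟩ := hPL x hx
      obtain ⟨u1, hu1⟩ := specCMP R G L Xb {y | ∃ x ∈ Xa, ∃ t ∈ Y, y = x * t} hL.bl hL.br
        (by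
          rintro h hh _ ⟨x, hx, t, ht, rfl⟩
          exact ⟨h * x, hL.al h hh x hx, t, ht, (mul_assoc _ _ _).symm⟩)
        (disj2 hL) _ _ _ C.d b (a *ᵥ ((b * a) ^ l *ᵥ exv (G := G) x)) hN.sb h1
        ⟨u0, by rw [← hu0, mulVec_mulVec, mulVec_mulVec, ← pow_succ']⟩ t
      have hu2 : b *ᵥ exv (G := G) (fun i => lres L t (((a * (b * a) ^ l) *ᵥ exv x) i)) =
          ext C.d *ᵥ u1 := by
        rw [← mulVec_mulVec]
        exact hu1
      exact ker3 (hZ (mem_zw hx t)) hu2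
  obtain ⟨C1, a1, b1, q, S⟩ := hSBW R G L Xa Xb ε hL.bl hL.br hL.bi hL.bn C a b k
    (ZW C C.dual k (a * (b * a) ^ l)) hN hC hD hZK hRD
  -- `q` is a map of complexes
  have hqx : ∀ x ∈ C1.Cy k, q *ᵥ x ∈ C.Cy k := by
    intro x hx
    refine ⟨fun i hi => ?_, ?_⟩
    · obtain ⟨j, hj, hj'⟩ := NLKAux.mulVec_ne hi
      rw [S.gq i j hj]
      exact hx.1 j hj'
    · rw [Matrix.mulVec_mulVec, S.ch, ← Matrix.mulVec_mulVec, hx.2, Matrix.mulVec_zero]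
  have hq1 : ext q * (b1 * a1) = (b * a) * ext q := by
    rw [S.ea, ← S.eb]
    simp only [Matrix.mul_assoc]
  have hqp : ∀ n : ℕ, ext q * (b1 * a1) ^ n = (b * a) ^ n * ext q := by
    intro n
    induction n with
    | zero => rw [pow_zero, pow_zero, Matrix.mul_one, Matrix.one_mul]
    | succ n ih =>
      rw [pow_succ, pow_succ, ← Matrix.mul_assoc, ih, Matrix.mul_assoc, hq1, ← Matrix.mul_assoc]
  have hqv : ∀ (n : ℕ) (x : C1.I → MonoidAlgebra R L),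
      ext q *ᵥ ((b1 * a1) ^ n *ᵥ exv x) = (b * a) ^ n *ᵥ exv (q *ᵥ x) := by
    intro n x
    rw [Matrix.mulVec_mulVec, hqp, ← Matrix.mulVec_mulVec, NLKAux.ext_exv]
  refine ⟨C1, a1, b1, S.nf, S.lv, S.lv', ?_, ?_, S.good⟩
  · intro x hx
    obtain ⟨h1, h2⟩ := STBAux.cyG_pow S.nf (STBAux.cyG_exv (G := G) hx) (l + 1)
    refine S.inj _ h1 h2 ?_
    rw [hqv]
    exact hPL _ (hqx x hx)
  · intro x hx
    have hstar : (ext q : Matrix C.I C1.I (MonoidAlgebra R G))ᴴ = ext qᴴ := LVLAux.ext_star q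
    have hstar1 : (ext C1.d : Matrix C1.I C1.I (MonoidAlgebra R G))ᴴ = ext C1.dᴴ :=
      LVLAux.ext_star C1.d
    obtain ⟨u, hu⟩ := specSUM R G L C1.I C.I C1.I C1.dᴴ (ext q)ᴴ
      ((a * (b * a) ^ l) *ᵥ exv (q *ᵥ x)) (by
        intro t
        obtain ⟨u2, hu2⟩ := S.kill _ (mem_zw (T := C.dual) (w := a * (b * a) ^ l) (hqx x hx) t)
        refine ⟨exv u2, ?_⟩
        rw [NLKAux.ext_exv, ← hu2, hstar, NLKAux.ext_exv]
        rfl)
    refine ⟨u, ?_⟩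
    have h1 : a1 *ᵥ ((b1 * a1) ^ l *ᵥ exv x) =
        (ext q)ᴴ *ᵥ ((a * (b * a) ^ l) *ᵥ exv (q *ᵥ x)) := by
      rw [← Matrix.mulVec_mulVec (exv (q *ᵥ x)) a, ← hqv, S.ea]
      simp only [Matrix.mulVec_mulVec, Matrix.mul_assoc]
    rw [h1, hu, hstar1]

end Pool.Agent.Lib.MP8a3537.WAB
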