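import Pool.Agent.Lib.MP_8a3537_gt.WAB.Spec
import Pool.Agent.Lib.MP_8a3537_gt.AU.DES
import Pool.Agent.Lib.MP_8a3537_gt.AU.FLT
import Pool.Agent.Lib.MP_8a3537_gt.AU.EXF
import Pool.Agent.Lib.MP_8a3537_gt.RO.SUM

/-!
# WAB, module WLF: lifting of `w` to the resolutions
-/

namespace Pool.Agent.Lib.MP8a3537.WAB

open Matrix Pool.Agent.Lib.MP8a3537.UV Pool.Agent.Lib.MP8a3537.AU Pool.Agent.Lib.MP8a3537.RO
open Pool.Agent.Lib.MP8a3537.UO (ext)

namespace WLFAux

open AU.EXFAux

section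

variable {R G : Type} [Ring R] [Group G] {L : Subgroup G}

theorem lres_ext (t : G) {m n : Type} [Fintype n] (M : Matrix m n (MonoidAlgebra R L))
    (u : n → MonoidAlgebra R G) :
    (fun i => lres L t ((ext M *ᵥ u) i)) = (M *ᵥ fun j => lres L t (u j)) := by
  funext i
  change lres L t (∑ j, emb R L (M i j) * u j) = ∑ j, M i j * lres L t (u j)
  rw [RESAux.lres_sum]
  exact Finset.sum_congr rfl fun j _ => RESAux.lres_emb_mul L t (u j) (M i j)

theorem exv_mulVec {m n : Type} [Fintype m] (M : Matrix n m (MonoidAlgebra R L))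
    (x : m → MonoidAlgebra R L) : exv (G := G) (M *ᵥ x) = ext M *ᵥ exv x := by
  funext i
  change emb R L (∑ j, M i j * x j) = ∑ j, emb R L (M i j) * emb R L (x j)
  rw [map_sum]
  exact Finset.sum_congr rfl fun j _ => map_mul _ _ _

theorem exv_single {m n : Type} [Fintype m] [DecidableEq m] (M : Matrix n m (MonoidAlgebra R L))
    (j : m) : exv (G := G) (M *ᵥ Pi.single j 1) = fun i => ext M i j := by
  funext i
  change emb R L ((M *ᵥ Pi.single j 1) i) = emb R L (M i j)
  rw [Matrix.mulVec_single_one]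
  rfl

/-- lifting of a vector all of whose components are in the image modulo boundaries -/
theorem lift (T J : FC (MonoidAlgebra R L)) (q : Matrix T.I J.I (MonoidAlgebra R L))
    (v : T.I → MonoidAlgebra R G)
    (hv : ∀ t : G, ∃ y : J.I → MonoidAlgebra R L, (∀ j, y j ≠ 0 → J.deg j = 0) ∧
      ∃ u : T.I → MonoidAlgebra R L, (fun i => lres L t (v i)) - q *ᵥ y = T.d *ᵥ u) :
    ∃ (c : J.I → MonoidAlgebra R G) (u : T.I → MonoidAlgebra R G),
      (∀ j, c j ≠ 0 → J.deg j = 0) ∧ v = ext q *ᵥ c + ext T.d *ᵥ u := by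
  classical
  choose y hy u hu using hv
  obtain ⟨Q, hQ⟩ := RESAux.exists_lcosets L (fun (i : T.I) (_ : Unit) => v i)
  refine ⟨fun j => ∑ p ∈ Q, emb R L (y (p.out)⁻¹ j) * MonoidAlgebra.single (p.out)⁻¹ 1,
    fun j => ∑ p ∈ Q, emb R L (u (p.out)⁻¹ j) * MonoidAlgebra.single (p.out)⁻¹ 1, ?_, ?_⟩
  · intro j hj
    obtain ⟨p, _, hp⟩ := Finset.exists_ne_zero_of_sum_ne_zero hj
    refine hy (p.out)⁻¹ j fun h0 => ?_
    apply left_ne_zero_of_mul hp
    rw [h0, map_zero]
  · funext i
    have h1 : v i = ∑ p ∈ Q, emb R L (lres L (p.out)⁻¹ (v i)) *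
        MonoidAlgebra.single (p.out)⁻¹ 1 :=
      RESAux.ldecomp L (v i) Q (fun g hg => hQ i () g hg)
    have h2 : ∀ t, lres L t (v i) = ∑ j, q i j * y t j + ∑ j, T.d i j * u t j := by
      intro t
      have h3 := congrFun (hu t) i
      rw [Pi.sub_apply, sub_eq_iff_eq_add] at h3
      rw [h3, add_comm]
      rfl
    have h4 : ∀ (n : Type) [Fintype n] (M : n → MonoidAlgebra R L)
        (z : G → n → MonoidAlgebra R L),
        ∑ p ∈ Q, emb R L (∑ j, M j * z (p.out)⁻¹ j) * MonoidAlgebra.single (p.out)⁻¹ 1 =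
        ∑ j, emb R L (M j) *
          (∑ p ∈ Q, emb R L (z (p.out)⁻¹ j) * MonoidAlgebra.single (p.out)⁻¹ 1) := by
      intro n _ M z
      simp only [map_sum, map_mul, Finset.sum_mul, Finset.mul_sum]
      rw [Finset.sum_comm]
      refine Finset.sum_congr rfl fun j _ => Finset.sum_congr rfl fun p _ => ?_
      rw [mul_assoc]
    have h5 : v i = ∑ p ∈ Q, emb R L (∑ j, q i j * y (p.out)⁻¹ j) *
          MonoidAlgebra.single (p.out)⁻¹ 1 +
        ∑ p ∈ Q, emb R L (∑ j, T.d i j * u (p.out)⁻¹ j) * MonoidAlgebra.single (p.out)⁻¹ 1 := by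
      rw [← Finset.sum_add_distrib]
      conv_lhs => rw [h1]
      refine Finset.sum_congr rfl fun p _ => ?_
      rw [h2, map_add, add_mul]
    rw [h5, h4, h4]
    rfl

/-- a vector of degree `0` which is mapped to a boundary is a boundary -/
theorem inj (T J : FC (MonoidAlgebra R L)) (k : ℤ) (Z : Submodule (MonoidAlgebra R L)ᵐᵒᵖ _)
    (q : Matrix T.I J.I (MonoidAlgebra R L)) (hZ : Z ≤ T.Cy k) (hJ : J.Resolves (T.Bd k) Z q)
    (c : J.I → MonoidAlgebra R G) (hc : ∀ j, c j ≠ 0 → J.deg j = 0)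
    (u : T.I → MonoidAlgebra R G) (hu : ext q *ᵥ c = ext T.d *ᵥ u) :
    ∃ z : J.I → MonoidAlgebra R G, c = ext J.d *ᵥ z := by
  have h : ∀ t : G, ∃ z : J.I → MonoidAlgebra R G,
      (1 : Matrix J.I J.I (MonoidAlgebra R G)) *ᵥ exv (fun i => lres L t (c i)) =
        ext J.d *ᵥ z := by
    intro t
    have h1 : q *ᵥ (fun j => lres L t (c j)) = T.d *ᵥ (fun j => lres L t (u j)) := by
      rw [← lres_ext, ← lres_ext, hu]
    obtain ⟨x, hx⟩ := hJ.ker (fun j => lres L t (c j))
      (fun j hj => hc j fun h0 => hj (by rw [h0]; exact RESAux.lres_zero L t))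
      ⟨(hZ (hJ.mem _)).1, _, h1⟩
    refine ⟨exv x, ?_⟩
    rw [one_mulVec, hx, exv_mulVec]
  obtain ⟨z, hz⟩ := specSUM R G L J.I J.I J.I J.d 1 c h
  exact ⟨z, by rw [← hz, one_mulVec]⟩

/-- the part of degree `0` -/
theorem part0 {S : Type} [Ring S] {m : Type} (Q : FC S) (g0 : Matrix m Q.I S)
    (hs : ∀ i j, g0 i j ≠ 0 → Q.deg j = 0) (y : Q.I → S) :
    ∃ y0 : Q.I → S, (∀ j, y0 j ≠ 0 → Q.deg j = 0) ∧ g0 *ᵥ y0 = g0 *ᵥ y := by
  refine ⟨fun j => if Q.deg j = 0 then y j else 0, fun j hj => ?_, ?_⟩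
  · by_contra h0
    exact hj (if_neg h0)
  · funext i
    change ∑ j, g0 i j * (if Q.deg j = 0 then y j else 0) = ∑ j, g0 i j * y j
    refine Finset.sum_congr rfl fun j _ => ?_
    by_cases h0 : Q.deg j = 0
    · rw [if_pos h0]
    · have h1 : g0 i j = 0 := by
        by_contra h2
        exact h0 (hs i j h2)
      rw [h1, zero_mul, zero_mul]

end

end WLFAux

open AU.EXFAux WLFAux in
/-- **Module WLF**. -/
theorem specWLF : SpecWLF := by
  have hDES : SpecDES := specDES
  have hFLT : SpecFLT := specFLT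
  intro R G _ _ _ L C T Q0 J k w g0 q hw hZ hQ0 hJ
  -- degree 0
  have hcol : ∀ j : Q0.I, ∃ (c : J.I → MonoidAlgebra R G) (u : T.I → MonoidAlgebra R G),
      (∀ i, c i ≠ 0 → J.deg i = 0 ∧ Q0.deg j = 0) ∧
      (fun i => (w * ext g0) i j) = ext q *ᵥ c + ext T.d *ᵥ u := by
    intro j
    by_cases hj : Q0.deg j = 0
    · have e1 : (fun i => (w * ext (G := G) g0) i j) = w *ᵥ exv (g0 *ᵥ Pi.single j 1) := by
        rw [exv_single]
        rfl
      obtain ⟨c, u, hc, hcu⟩ := lift T J q (fun i => (w * ext g0) i j) (by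
        intro t
        have e5 : (fun i => lres L t ((w * ext (G := G) g0) i j)) =
            fun i => lres L t ((w *ᵥ exv (g0 *ᵥ Pi.single j 1)) i) := by
          funext i
          exact congrArg (lres L t) (congrFun e1 i)
        rw [e5]
        have hz : (fun i => lres L t ((w *ᵥ exv (g0 *ᵥ Pi.single j 1)) i)) ∈ ZW C T k w :=
          Submodule.mem_sup_right (Submodule.subset_span ⟨_, hQ0.mem _, t, rfl⟩)
        obtain ⟨y, hy⟩ := hJ.onto _ hz
        obtain ⟨y0, hy0, hy1⟩ := part0 J q hJ.supp y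
        refine ⟨y0, hy0, ?_⟩
        rw [hy1]
        exact hy.2)
      exact ⟨c, u, fun i hi => ⟨hc i hi, hj⟩, hcu⟩
    · refine ⟨0, 0, fun i hi => absurd rfl hi, ?_⟩
      rw [mulVec_zero, mulVec_zero, add_zero]
      funext i
      apply Finset.sum_eq_zero
      intro l _
      by_contra h
      exact hj (hQ0.supp l j (ext_ne g0 l j (right_ne_zero_of_mul h)))
  choose F0 U hF0 hF using hcol
  set F : Matrix J.I Q0.I (MonoidAlgebra R G) := Matrix.of fun i j => F0 j i with hFdef
  set UU : Matrix T.I Q0.I (MonoidAlgebra R G) := Matrix.of fun i j => U j i with hUdef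
  have hFd : ∀ i j, F i j ≠ 0 → J.deg i = 0 ∧ Q0.deg j = 0 := fun i j h => hF0 j i h
  have hFU : w * ext g0 = ext q * F + ext T.d * UU := by
    ext1 i j
    exact congrFun (hF j) i
  -- degree -1
  have hcol1 : ∀ j : Q0.I, ∃ z : J.I → MonoidAlgebra R G,
      (∀ i, z i ≠ 0 → J.deg i = -1 ∧ Q0.deg j = -1) ∧
      (fun i => (F * ext Q0.d) i j) = ext J.d *ᵥ z := by
    intro j
    by_cases hj : Q0.deg j = -1
    · obtain ⟨-, u', hu'⟩ := hQ0.im (Pi.single j 1)
      have e0 : (w * ext (G := G) g0) * ext Q0.d = ext q * (F * ext Q0.d) +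
          ext T.d * (UU * ext Q0.d) := by
        rw [hFU, Matrix.add_mul, Matrix.mul_assoc, Matrix.mul_assoc]
      have e1 : (fun i => ((w * ext (G := G) g0) * ext Q0.d) i j) =
          ext T.d *ᵥ (w *ᵥ exv u') := by
        have e2 : (fun i => ((w * ext (G := G) g0) * ext Q0.d) i j) =
            w *ᵥ exv (g0 *ᵥ (Q0.d *ᵥ Pi.single j 1)) := by
          rw [mulVec_mulVec, exv_single, ext_mul, Matrix.mul_assoc]
          rfl
        rw [e2, hu', exv_mulVec, mulVec_mulVec, hw.cw, ← mulVec_mulVec]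
      have e3 : ext q *ᵥ (fun i => (F * ext Q0.d) i j) =
          ext T.d *ᵥ (w *ᵥ exv u' - fun i => (UU * ext Q0.d) i j) := by
        rw [mulVec_sub, ← e1, e0]
        funext i
        rw [Pi.sub_apply, Matrix.add_apply]
        change _ = _ + (ext T.d *ᵥ fun i => (UU * ext Q0.d) i j) i -
          (ext T.d *ᵥ fun i => (UU * ext Q0.d) i j) i
        rw [add_sub_cancel_right]
        rfl
      have e4 : ∀ i, (F * ext Q0.d) i j ≠ 0 → J.deg i = 0 := by
        intro i hi
        obtain ⟨l, _, hl⟩ := Finset.exists_ne_zero_of_sum_ne_zero hi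
        exact (hFd i l (left_ne_zero_of_mul hl)).1
      obtain ⟨z, hz⟩ := inj T J k (ZW C T k w) q hZ hJ (fun i => (F * ext Q0.d) i j) e4 _ e3
      obtain ⟨z', -, hz2, hz3⟩ := sol J (-1) Set.univ (fun _ _ _ _ => Set.mem_univ _)
        (fun i => (F * ext Q0.d) i j) (fun _ _ _ => Set.mem_univ _)
        (fun i hi => by rw [e4 i hi]; ring) z hz
      exact ⟨z', fun i hi => ⟨hz2 i hi, hj⟩, hz3⟩
    · refine ⟨0, fun i hi => absurd rfl hi, ?_⟩
      rw [mulVec_zero]
      funext i
      apply Finset.sum_eq_zero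
      intro l _
      by_contra h
      have h1 := (hFd i l (left_ne_zero_of_mul h)).2
      have h2 := Q0.hd l j (ext_ne Q0.d l j (right_ne_zero_of_mul h))
      omega
  choose Z0 hZ0 hZ1 using hcol1
  set ZZ : Matrix J.I Q0.I (MonoidAlgebra R G) := Matrix.of fun i j => Z0 j i with hZdef
  have hZd : ∀ i j, ZZ i j ≠ 0 → J.deg i = -1 ∧ Q0.deg j = -1 := fun i j h => hZ0 j i h
  have hJZ : ext J.d * ZZ = F * ext Q0.d := by
    ext1 i j
    exact (congrFun (hZ1 j) i).symm
  have hJF : ext J.d * F = 0 := by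
    ext1 i j
    apply Finset.sum_eq_zero
    intro l _
    by_contra h
    have h1 := (hFd l j (right_ne_zero_of_mul h)).1
    have h2 := J.hd i l (ext_ne J.d i l (left_ne_zero_of_mul h))
    have h3 := hJ.res.1 i
    omega
  have hFl := hFLT R G L Set.univ J 0 (fun _ _ _ _ => Set.mem_univ _) hJ.res.2
  obtain ⟨W, -, hW2, hW3, hW4⟩ := hDES (MonoidAlgebra R L) (MonoidAlgebra R G)
    (MonoidAlgebra.mapDomainRingHom R L.subtype) ⊤ J Q0 (-2) 0 1 0 (F + ZZ)
    (fun _ _ _ => AddSubgroup.mem_top _)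
    (by
      intro x _ hxd hx0
      obtain ⟨z, -, hz⟩ := hFl x (fun _ _ _ => Set.mem_univ _)
        (fun j hj => by have := hxd j hj; omega) hx0
      exact ⟨z, fun _ => AddSubgroup.mem_top _, hz⟩)
    (fun _ _ => AddSubgroup.mem_top _)
    (fun _ _ => AddSubgroup.mem_top _)
    (fun _ _ h0 => absurd rfl h0)
    (by
      intro i j hij
      by_cases h : F i j = 0
      · have h1 : ZZ i j ≠ 0 := by
          intro h1
          apply hij
          rw [Matrix.add_apply, h, h1, add_zero]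
        have := hZd i j h1
        omega
      · have := hFd i j h
        omega)
    (by
      rw [Matrix.mul_zero, Matrix.zero_mul, smul_zero, add_zero])
    (by
      intro i j hj
      rw [Units.val_one, one_smul, zero_add]
      change (ext J.d * (F + ZZ)) i j = ((F + ZZ) * ext Q0.d) i j
      have h0 : (ZZ * ext Q0.d) i j = 0 := by
        apply Finset.sum_eq_zero
        intro l _
        by_contra h
        have h1 := (hZd i l (left_ne_zero_of_mul h)).2
        have h2 := Q0.hd l j (ext_ne Q0.d l j (right_ne_zero_of_mul h))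
        omega
      rw [Matrix.mul_add, hJF, hJZ, zero_add, Matrix.add_mul, Matrix.add_apply, h0, add_zero])
  rw [Units.val_one, one_smul, zero_add] at hW4
  refine ⟨W, fun i j h => ?_, hW4, fun y hy => ?_⟩
  · have := hW2 i j h
    omega
  · have hWF : W *ᵥ exv y = F *ᵥ exv y := by
      funext i
      change ∑ j, W i j * emb R L (y j) = ∑ j, F i j * emb R L (y j)
      refine Finset.sum_congr rfl fun j _ => ?_
      by_cases h : y j = 0
      · rw [h, map_zero, mul_zero, mul_zero]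
      · have h1 := hy j h
        rw [hW3 i j (by omega), Matrix.add_apply]
        have h2 : ZZ i j = 0 := by
          by_contra h2
          have := (hZd i j h2).2
          omega
        rw [h2, add_zero]
    refine ⟨UU *ᵥ exv y, ?_⟩
    rw [hWF, exv_mulVec, mulVec_mulVec, mulVec_mulVec, mulVec_mulVec, ← add_mulVec, hFU]

end Pool.Agent.Lib.MP8a3537.WAB
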