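import Pool.Agent.Lib.MP_8a3537_gt.WAB.Spec
import Pool.Agent.Lib.MP_8a3537_gt.UV.RES
import Pool.Agent.Lib.MP_8a3537_gt.AU.NLK

/-!
# WAB, module ZWF: the submodule `ZW` is finitely generated
-/

namespace Pool.Agent.Lib.MP8a3537.WAB

open Matrix Pool.Agent.Lib.MP8a3537.UV Pool.Agent.Lib.MP8a3537.AU Pool.Agent.Lib.MP8a3537.RO
open Pool.Agent.Lib.MP8a3537.UO (ext)

namespace ZWFAux

section Gen

variable {R G : Type} [Ring R] [Group G] (L : Subgroup G)

/-- The components of `v y` are in the right span of the components of `v`. -/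
theorem key {m : Type} (N : Submodule (MonoidAlgebra R L)ᵐᵒᵖ (m → MonoidAlgebra R L))
    (v : m → MonoidAlgebra R G) (Q : Finset (G ⧸ L))
    (hQ : ∀ i g, (v i).coeff g ≠ 0 → ((g⁻¹ : G) : G ⧸ L) ∈ Q)
    (h : ∀ q ∈ Q, (fun i => lres L (q.out)⁻¹ (v i)) ∈ N) (y : MonoidAlgebra R G) (t : G) :
    (fun i => lres L t (v i * y)) ∈ N := by
  have h1 : (fun i => lres L t (v i * y)) =
      ∑ q ∈ Q, MulOpposite.op (lres L t (MonoidAlgebra.single (q.out)⁻¹ 1 * y)) •
        (fun i => lres L (q.out)⁻¹ (v i)) := by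
    funext i
    rw [Finset.sum_apply]
    have h2 := RESAux.ldecomp L (v i) Q (fun g hg => hQ i g hg)
    conv_lhs => rw [h2]
    rw [Finset.sum_mul, RESAux.lres_sum]
    refine Finset.sum_congr rfl fun q _ => ?_
    rw [mul_assoc, RESAux.lres_emb_mul]
    rfl
  rw [h1]
  exact Submodule.sum_mem _ fun q hq => Submodule.smul_mem _ _ (h q hq)

theorem exists_Q {m : Type} [Fintype m] (v : m → MonoidAlgebra R G) :
    ∃ Q : Finset (G ⧸ L), ∀ i g, (v i).coeff g ≠ 0 → ((g⁻¹ : G) : G ⧸ L) ∈ Q := by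
  obtain ⟨Q, hQ⟩ := RESAux.exists_lcosets L (Matrix.of fun (i : m) (_ : Unit) => v i)
  exact ⟨Q, fun i g hg => hQ i () g hg⟩

theorem exv_add {n : Type} (x y : n → MonoidAlgebra R L) :
    (exv (x + y) : n → MonoidAlgebra R G) = exv x + exv y := by
  funext i
  exact map_add (MonoidAlgebra.mapDomainRingHom R L.subtype) _ _

theorem mulVec_exv_smul {m n : Type} [Fintype n] (w : Matrix m n (MonoidAlgebra R G))
    (s : (MonoidAlgebra R L)ᵐᵒᵖ) (x : n → MonoidAlgebra R L) (i : m) :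
    (w *ᵥ exv (s • x)) i = (w *ᵥ exv x) i * emb R L s.unop := by
  change (∑ j, w i j * emb R L (x j * s.unop)) = (∑ j, w i j * emb R L (x j)) * emb R L s.unop
  rw [Finset.sum_mul]
  refine Finset.sum_congr rfl fun j _ => ?_
  rw [map_mul, mul_assoc]

/-- The components of `w x`, `x` in the span of a finite set. -/
theorem fg_span {m n : Type} [Fintype m] [Fintype n] (w : Matrix m n (MonoidAlgebra R G))
    (K : Submodule (MonoidAlgebra R L)ᵐᵒᵖ (n → MonoidAlgebra R L)) (hK : K.FG) :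
    (Submodule.span (MonoidAlgebra R L)ᵐᵒᵖ
      {z : m → MonoidAlgebra R L | ∃ x ∈ K, ∃ t : G, z = fun i => lres L t ((w *ᵥ exv x) i)}).FG := by
  obtain ⟨X, hX, rfl⟩ := Submodule.fg_def.1 hK
  choose Q hQ using fun x : n → MonoidAlgebra R L => exists_Q L (w *ᵥ exv x)
  have hfin : (⋃ x ∈ X, (fun (q : G ⧸ L) (i : m) => lres L (q.out)⁻¹ ((w *ᵥ exv x) i)) ''
      (Q x : Set (G ⧸ L))).Finite :=
    hX.biUnion fun x _ => (Finset.finite_toSet _).image _
  refine Submodule.fg_def.2 ⟨_, hfin, le_antisymm ?_ ?_⟩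
  · refine Submodule.span_mono ?_
    intro z hz
    rw [Set.mem_iUnion₂] at hz
    obtain ⟨x, hx, q, -, rfl⟩ := hz
    exact ⟨x, Submodule.subset_span hx, _, rfl⟩
  · rw [Submodule.span_le]
    rintro z ⟨x, hx, t, rfl⟩
    rw [SetLike.mem_coe]
    revert t
    induction hx using Submodule.span_induction with
    | mem x hx =>
      intro t
      have h1 := key L (Submodule.span (MonoidAlgebra R L)ᵐᵒᵖ
        (⋃ x ∈ X, (fun (q : G ⧸ L) (i : m) => lres L (q.out)⁻¹ ((w *ᵥ exv x) i)) ''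
          (Q x : Set (G ⧸ L)))) (w *ᵥ exv x) (Q x) (hQ x) (fun q hq => by
            refine Submodule.subset_span ?_
            rw [Set.mem_iUnion₂]
            exact ⟨x, hx, q, hq, rfl⟩) 1 t
      simpa only [mul_one] using h1
    | zero =>
      intro t
      have h1 : (fun i => lres L t ((w *ᵥ exv (0 : n → MonoidAlgebra R L)) i)) =
          (0 : m → MonoidAlgebra R L) := by
        funext i
        rw [NLKAux.exv_zero, mulVec_zero]
        exact RESAux.lres_zero L t
      rw [h1]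
      exact Submodule.zero_mem _
    | add x y _ _ hx hy =>
      intro t
      have h1 : (fun i => lres L t ((w *ᵥ exv (x + y)) i)) =
          (fun i => lres L t ((w *ᵥ exv x) i)) + fun i => lres L t ((w *ᵥ exv y) i) := by
        funext i
        rw [exv_add, mulVec_add, Pi.add_apply, RESAux.lres_add]
        rfl
      rw [h1]
      exact Submodule.add_mem _ (hx t) (hy t)
    | smul s x _ hx =>
      intro t
      have h1 := key L _ (w *ᵥ exv x) (Q x) (hQ x) (fun q _ => hx _) (emb R L s.unop) t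
      have h2 : (fun i => lres L t ((w *ᵥ exv (s • x)) i)) =
          fun i => lres L t ((w *ᵥ exv x) i * emb R L s.unop) := by
        funext i
        rw [mulVec_exv_smul]
      rw [h2]
      exact h1

theorem lres_mulVec {m n : Type} [Fintype n] (M : Matrix m n (MonoidAlgebra R L)) (t : G)
    (u : n → MonoidAlgebra R G) (i : m) :
    (M *ᵥ fun j => lres L t (u j)) i = lres L t ((ext M *ᵥ u) i) := by
  change ∑ j, M i j * lres L t (u j) = lres L t (∑ j, emb R L (M i j) * u j)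
  rw [RESAux.lres_sum]
  exact Finset.sum_congr rfl fun j _ => (RESAux.lres_emb_mul L t (u j) (M i j)).symm

end Gen

end ZWFAux

open ZWFAux in
theorem specZWF (hRSC : SpecRSC) : SpecZWF := by
  intro R G _ _ _ L d hW C T k w hw
  obtain ⟨-, hfg⟩ := hRSC _ d hW
  refine ⟨(hfg T k).2.sup (fg_span L w (C.Cy k) (hfg C k).1), le_sup_left, ?_⟩
  refine sup_le ?_ (Submodule.span_le.2 ?_)
  · rintro x ⟨hx, y, rfl⟩
    refine ⟨hx, ?_⟩
    rw [mulVec_mulVec, T.dd, zero_mulVec]
  · rintro z ⟨x, ⟨hx, hdx⟩, t, rfl⟩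
    refine ⟨fun i hi => ?_, ?_⟩
    · have h1 : (w *ᵥ exv x) i ≠ 0 := by
        intro h0
        apply hi
        change lres L t ((w *ᵥ exv x) i) = 0
        rw [h0, RESAux.lres_zero]
      obtain ⟨j, hj, hj'⟩ := NLKAux.mulVec_ne h1
      rw [hw.gw i j hj]
      exact hx j (NLKAux.exv_ne hj')
    · funext i
      rw [lres_mulVec, mulVec_mulVec, ← hw.cw, ← mulVec_mulVec, NLKAux.ext_exv, hdx,
        NLKAux.exv_zero, mulVec_zero]
      exact RESAux.lres_zero L t

end Pool.Agent.Lib.MP8a3537.WAB
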