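import Pool.Agent.Lib.MP_8a3537_gt.WAB.ACW
import Pool.Agent.Lib.MP_8a3537_gt.WAB.BTW
import Pool.Agent.Lib.MP_8a3537_gt.WAB.EXW
import Pool.Agent.Lib.MP_8a3537_gt.WAB.GRA
import Pool.Agent.Lib.MP_8a3537_gt.WAB.GRB
import Pool.Agent.Lib.MP_8a3537_gt.WAB.GRC
import Pool.Agent.Lib.MP_8a3537_gt.WAB.GRD
import Pool.Agent.Lib.MP_8a3537_gt.WAB.GRE
import Pool.Agent.Lib.MP_8a3537_gt.WAB.LVW
import Pool.Agent.Lib.MP_8a3537_gt.WAB.MRS
import Pool.Agent.Lib.MP_8a3537_gt.WAB.RDW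
import Pool.Agent.Lib.MP_8a3537_gt.WAB.RSC
import Pool.Agent.Lib.MP_8a3537_gt.WAB.SAW
import Pool.Agent.Lib.MP_8a3537_gt.WAB.SBW
import Pool.Agent.Lib.MP_8a3537_gt.WAB.SRW
import Pool.Agent.Lib.MP_8a3537_gt.WAB.STW
import Pool.Agent.Lib.MP_8a3537_gt.WAB.WLF
import Pool.Agent.Lib.MP_8a3537_gt.WAB.ZWF

/-!
# The base theorem for weakly Auslander regular coherent rings, without hypotheses
-/

set_option autoImplicit false

namespace Pool.Agent.Lib.MP8a3537.WAB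

theorem mMRS : SpecMRS := specMRS specRSC

theorem mZWF : SpecZWF := specZWF specRSC

theorem mGRD : SpecGRD := specGRD specRSC mZWF specGRE specWLF specGRA specGRB specGRC

theorem mSRW : SpecSRW := specSRW specEXW

theorem mSBW : SpecSBW := specSBW mSRW

theorem mSTW : SpecSTW := specSTW mMRS mGRD specRDW mSBW

theorem mSAW : SpecSAW := specSAW mMRS mGRD specRDW mSRW

theorem mLVW : SpecLVW := specLVW mMRS specRDW mSBW mSTW mSAW

/-- **The base theorem.** -/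
theorem mBTW : SpecBTW := specBTW specACW mLVW

end Pool.Agent.Lib.MP8a3537.WAB
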