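import Pool.Agent.Lib.MP_8a3537_gt.WAB.Defs

/-!
# The base theorem for weakly Auslander regular coherent rings: Specs

Paper proof: `/team-store/8a3537_WA.md`, PART 1. Every module `XXX` is a file
`Pool/Agent/Lib/MP_8a3537_gt/WAB/XXX.lean` which imports this file and proves
`theorem specXXX (hypotheses in the order of the deps) : SpecXXX` (exactly this name) in the namespace
`Pool.Agent.Lib.MP8a3537.WAB`, with its auxiliary declarations in `WAB.XXXAux`. The landed modules of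
the folders `UV`, `AU`, `RO` may be imported where it is useful (`RO/AUM`: `auLIF`, `auSYM`, `auENV`
without hypotheses; `AU/DES`: `specDES`, `AU/FLT`: `specFLT`, `AU/TRU`: `specTRU`, `RO/CMP`: `specCMP`,
`RO/SUM`: `specSUM`, `RO/SWB`: `specSWB`, `AU/CNE`, `AU/CNF`, `AU/GDS`; `AU/LVL`, `AU/NLK`, `AU/PRG`,
`UV/RES`: auxiliary lemmas on `exv`, `ext`, `lres`).

In all modules `S = R[L]`, `A = R[G]`. A vector over `S` of degree `0` w.r.t. a resolution `Q` (degrees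
`≤ 0`) is killed by `Q.d`, because there is no index of degree `1`.
-/

namespace Pool.Agent.Lib.MP8a3537.WAB

open Matrix Pool.Agent.Lib.MP8a3537.UV Pool.Agent.Lib.MP8a3537.AU Pool.Agent.Lib.MP8a3537.RO
open Pool.Agent.Lib.MP8a3537.UO (ext)

/-! ### Part 1: the submodule `ZW` has full grade -/

/-- **RSC** (size 200): resolutions of `Z / B`.

PROOF. (1) As in `AU/RSZ.lean`. Reindex `m` by `Fin`. `Z.FG`: `Z = rng z`, `z : m × Fin r` (the generators are the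
columns; `rng` = right span of the columns, see `AU/NOE.lean`), `B = rng b`, `b : m × Fin s`. `coh` for `M = (z | b)`
(reindexed): `K`; the rows of `K` with index in `Fin r` form `K1`, and `{y | z *ᵥ y ∈ B} = rng K1` (`z y = b y'` iff
`M (y; -y') = 0`). `ffr` for `K1`: `J`, `q0` with `J.Resolves (rng K1) ⊤ q0`; `q = z * q0`. `onto`: `v = z c`,
`c - q0 y ∈ rng K1`. `im`, `ker`: `q0 _ ∈ rng K1` iff `z (q0 _) ∈ B`. (2) `Cy k = {x | M x = 0}` with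
`M = (C.d; e)`, `e` the diagonal matrix with entry `1` at the indices of degree `≠ k`; `coh` (reindexed). `Bd k` is the
right span of the columns of `C.d` with index of degree `k - 1` (a column of `C.d` with index of degree `≠ k - 1` is
supported in degrees `≠ k`: for `x = C.d y` of degree `k`, `x = C.d y'`, `y'` the part of `y` of degree `k - 1`). -/
def SpecRSC : Prop :=
  ∀ (S : Type) [Ring S] [StarRing S] (d : ℕ), WAR S d →
    (∀ (m : Type) [Fintype m] (B Z : Submodule Sᵐᵒᵖ (m → S)), B ≤ Z → B.FG → Z.FG →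
      ∃ (J : FC S) (q : Matrix m J.I S), J.Resolves B Z q) ∧
    ∀ (C : FC S) (k : ℤ), (C.Cy k).FG ∧ (C.Bd k).FG

/-- **MRS** (size 250, dep `SpecRSC`; imports `AU/TRU`, see `AU/RSP.lean`): a resolution of `H^k(C)`.

PROOF. `k = 0`: RSC; `Q.deg ≤ 0`, so the degrees of `Q.dual` are `≥ 0` and `Q.dual.ExBelow 0` is empty. `k ≥ 1`: `P`, `ρ`
from TRU. `wa` for `P`, `c = 2 k`: `Q`, `g'` with `Q.Resolves (P.dual.Bd c) (P.dual.Cy c) g'`, `Q.dual.ExBelow (2 k)`.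
`g i j = g' l j` if `i = ρ l`, `0` otherwise (see `AU/RSP.lean`, the matrix `g0`); by TRU with `q = k` a vector `x` of
`C`-degree `k` is in `C.Cy k` (`C.Bd k`) iff `x ∘ ρ ∈ P.dual.Cy (2 k)` (`P.dual.Bd (2 k)`), and `x` is the extension by
zero of `x ∘ ρ` (all indices `i` with `- C.deg i ≤ k` are of the form `ρ l`). -/
def SpecMRS : Prop :=
  ∀ (S : Type) [Ring S] [StarRing S] (d : ℕ), WAR S d → ∀ (C : FC S) (k : ℕ),
    C.ExBelow k → C.dual.ExBelow k →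
    ∃ (Q : FC S) (g : Matrix C.I Q.I S), Q.Resolves (C.Bd k) (C.Cy k) g ∧
      Q.dual.ExBelow ((2 * k : ℕ) : ℤ)

/-- **ZWF** (size 200, dep `SpecRSC`): `ZW` is finitely generated.

PROOF. `ZW ≤ Cy`: for `x ∈ C.Cy k`: `v = w exv x` is supported in degree `k` (`gw`) and
`ext T.d v = w ext C.d exv x = w exv (C.d x) = 0`; `lres L t` is left linear over `S`: `T.d (lres t v) = 0`
(`lres_emb_mul`). FG: `T.Bd k` is (RSC). `C.Cy k = rng z0`, columns `x_1, .., x_r` (RSC). Let `v_j = w exv x_j`. The set `E` of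
the vectors `lres L t v_j` is finite (`lres L t v = lres L (l t) v * single l 1`-translates: use a finite set `Q` of
representatives `t'` of the right cosets which meet the supports, `RESAux.exists_lcosets`, `RESAux.ldecomp`:
`v = ∑_{t'} exv (lres t' v) t'`). For `x = ∑_j x_j s_j`, `w exv x = ∑_j v_j emb(s_j)`, and
`lres t (v_j emb(s_j)) = ∑_{t'} (lres t' v_j) * lres t (t' emb(s_j))` (`lres_emb_mul`): in the right span of the
`lres t' v_j`, `t' ∈ Q`. So the span in `ZW` is the span of a finite set. -/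
def SpecZWF : Prop :=
  ∀ (R G : Type) [Ring R] [StarRing R] [Group G] (L : Subgroup G) (d : ℕ),
    WAR (MonoidAlgebra R L) d → ∀ (C T : FC (MonoidAlgebra R L)) (k : ℤ)
    (w : Matrix T.I C.I (MonoidAlgebra R G)), WM C T w →
    (ZW C T k w).FG ∧ T.Bd k ≤ ZW C T k w ∧ ZW C T k w ≤ T.Cy k

/-- **GRE** (size 80; imports `RO/AUM`): extension of `γ` to a chain map.

PROOF. `auLIF` for `C := J.dual`, `J := sh P i`, `k := i`, `g0 :=` `γ` (its columns of degree `≠ 0` vanish, `supp`; its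
rows: the columns of `γ` are in `J.dual.Cy i` (`mem` for unit vectors), so `γ a b ≠ 0` implies `- J.deg a = i`). The condition of
LIF: `γ (P.d x) ∈ J.dual.Bd i` (`im`). -/
def SpecGRE : Prop :=
  ∀ (S : Type) [Ring S] [StarRing S] (J P : FC S) (i : ℕ) (γ : Matrix J.dual.I P.I S),
    P.Resolves (J.dual.Bd i) (J.dual.Cy i) γ → J.dual.ExBelow i →
    ∃ g : Matrix J.I P.I S, (∀ a b, g a b ≠ 0 → - J.deg a = P.deg b + i) ∧
      (∀ a b, P.deg b = 0 → g a b = γ a b) ∧ J.dᴴ * g + g * P.d = 0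

/-- **WLF** (size 280; imports `AU/DES`, `AU/FLT`): lifting of `w` to the resolutions.

PROOF. Degree `0`: for `j` with `Q0.deg j = 0` let `v_j = w exv (g0 e_j)` (`e_j` the unit vector, `g0 e_j ∈ C.Cy k` by `mem`).
For every `t`: `lres t v_j ∈ ZW`, so by `onto` there is `y_{j,t}` (replace it by its part of degree `0`: `supp`), `y = 0` if
`lres t v_j = 0`, with `lres t v_j - q y_{j,t} ∈ T.Bd k`. `f0 e_j = ∑_{t'} exv(y_{j,t'}) t'` over representatives `t'` of the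
right cosets; then `v_j - ext q (f0 e_j) = ∑_{t'} exv(lres t' v_j - q y_{j,t'}) t' ∈ im ext T.d`. Degree `-1`: for `Q0.deg j = -1`,
`c = f0 (Q0.d e_j)` (degree `0`): `ext q c = w ext(g0 (Q0.d e_j))` modulo `im ext T.d`, `g0 (Q0.d e_j) ∈ C.Bd k` is
`C.d u` (`im`), `w ext C.d = ext T.d w` (`cw`). So `ext q c ∈ im ext T.d`; the components: `q (lres t c) ∈ T.Bd k` (it is in
`T.Cy k`, so supported in degree `k`, and `lres t` of `im ext T.d` is in `im T.d`), so by `ker` `lres t c ∈ im J.d`, so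
`c ∈ im ext J.d` (`specSUM` with `M = 1`, or the decomposition). Lower degrees: DES with `T := J`, `Q := Q0`, `φ = emb`, `V = ⊤`,
`e = 0`, `s = 1`, `M = 0`, `q0 = -2`; exactness of `J ⊗ A` below `0`: FLT. Last clause: for `y` of degree `0` over `S`:
`w exv (g0 y) = ∑_j v_j emb(y_j)`. -/
def SpecWLF : Prop :=
  ∀ (R G : Type) [Ring R] [StarRing R] [Group G] (L : Subgroup G)
    (C T Q0 J : FC (MonoidAlgebra R L)) (k : ℤ) (w : Matrix T.I C.I (MonoidAlgebra R G))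
    (g0 : Matrix C.I Q0.I (MonoidAlgebra R L)) (q : Matrix T.I J.I (MonoidAlgebra R L)),
    WM C T w → ZW C T k w ≤ T.Cy k → Q0.Resolves (C.Bd k) (C.Cy k) g0 →
    J.Resolves (T.Bd k) (ZW C T k w) q →
    ∃ W : Matrix J.I Q0.I (MonoidAlgebra R G), (∀ i j, W i j ≠ 0 → J.deg i = Q0.deg j) ∧
      ext J.d * W = W * ext Q0.d ∧
      ∀ y : Q0.I → MonoidAlgebra R L, (∀ j, y j ≠ 0 → Q0.deg j = 0) →
        ∃ u, w *ᵥ exv (g0 *ᵥ y) = ext q *ᵥ (W *ᵥ exv y) + ext T.d *ᵥ u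

/-- **GRA** (size 180; imports `AU/DES`, `AU/FLT`): the composition vanishes on `H^0(Q0)`.

PROOF. `N = Wᴴ * ext g : Q0.I × P.I`: degrees `- Q0.deg = P.deg + i`, and
`(ext Q0.d)ᴴ N = (W ext Q0.d)ᴴ ext g = (ext J.d W)ᴴ ext g = Wᴴ ext (J.dᴴ g) = - N ext P.d`. DES with `T := Q0.dual`, `Q := P`,
`φ = emb`, `V = ⊤`, `s = 1`, `M = N`, `f0 = 0`, `e = i - 1`, `q0 = 0` (no column has degree `> 0`); the exactness of `Q0.dual ⊗ A`
below `q0 + e + 2 = i + 1 ≤ m`: FLT. `h` with `(ext Q0.d)ᴴ h = N + h ext P.d`. Star: `(ext g)ᴴ W = hᴴ ext Q0.d - (ext P.d)ᴴ hᴴ`.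
`ext Q0.d *ᵥ y = 0` (degrees), so `v = -(hᴴ *ᵥ y)`. -/
def SpecGRA : Prop :=
  ∀ (R G : Type) [Ring R] [StarRing R] [Group G] (L : Subgroup G)
    (Q0 J P : FC (MonoidAlgebra R L)) (i m : ℕ) (W : Matrix J.I Q0.I (MonoidAlgebra R G))
    (g : Matrix J.I P.I (MonoidAlgebra R L)), i < m → (∀ j, Q0.deg j ≤ 0) → (∀ j, P.deg j ≤ 0) →
    Q0.dual.ExBelow m → (∀ i j, W i j ≠ 0 → J.deg i = Q0.deg j) → ext J.d * W = W * ext Q0.d →
    (∀ a b, g a b ≠ 0 → - J.deg a = P.deg b + i) → J.dᴴ * g + g * P.d = 0 →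
    ∀ y : Q0.I → MonoidAlgebra R G, (∀ j, y j ≠ 0 → Q0.deg j = 0) →
      ∃ v, (ext g)ᴴ *ᵥ (W *ᵥ y) = (ext P.d)ᴴ *ᵥ v

/-- **GRB** (size 220): `g^*` vanishes on `H^0(J)`.

PROOF. `YY` = the set of the `y : J.I → S` supported in degree `0` with `gᴴ *ᵥ y ∈ im P.dᴴ`: a right submodule, and it contains
the vectors `J.d *ᵥ z` of degree `0` (`gᴴ J.d = - P.dᴴ gᴴ`: the star of `J.dᴴ g + g P.d = 0`). Claim: for all `z ∈ ZW C T k w` there
is `y ∈ YY` with `z - q *ᵥ y ∈ T.Bd k`. The set of these `z` is a submodule; it contains `T.Bd k` (`y = 0`). For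
`z = lres t (w exv x)`, `x ∈ C.Cy k`: `onto` for `Q0`: `x = g0 y0 + C.d u`, `y0` of degree `0` (`supp`). `w exv x = w exv (g0 y0) +
ext T.d (w exv u)` (`cw`) `= ext q (W exv y0) + ext T.d u'`; `lres t`: `z = q y + T.d u''`, `y = lres t (W exv y0)` (degree `0`),
`T.d u'' = z - q y` is supported in degree `k` (both are in `T.Cy k`; `q y ∈ ZW`, `mem`), so in `T.Bd k`. By hypothesis `hd`:
`(ext g)ᴴ (W exv y0) = (ext P.d)ᴴ v`, apply `lres t`: `gᴴ y = P.dᴴ (lres t v)`. Now let `y` be of degree `0`: `q y ∈ ZW`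
(`mem`), `y' ∈ YY` with `q y - q y' ∈ T.Bd k`, by `ker` `y - y' = J.d z`, so `y ∈ YY`. -/
def SpecGRB : Prop :=
  ∀ (R G : Type) [Ring R] [StarRing R] [Group G] (L : Subgroup G)
    (C T Q0 J P : FC (MonoidAlgebra R L)) (k : ℤ) (i : ℕ) (w : Matrix T.I C.I (MonoidAlgebra R G))
    (g0 : Matrix C.I Q0.I (MonoidAlgebra R L)) (q : Matrix T.I J.I (MonoidAlgebra R L))
    (W : Matrix J.I Q0.I (MonoidAlgebra R G)) (g : Matrix J.I P.I (MonoidAlgebra R L)),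
    WM C T w → ZW C T k w ≤ T.Cy k → Q0.Resolves (C.Bd k) (C.Cy k) g0 →
    J.Resolves (T.Bd k) (ZW C T k w) q → (∀ i j, W i j ≠ 0 → J.deg i = Q0.deg j) →
    (∀ y : Q0.I → MonoidAlgebra R L, (∀ j, y j ≠ 0 → Q0.deg j = 0) →
      ∃ u, w *ᵥ exv (g0 *ᵥ y) = ext q *ᵥ (W *ᵥ exv y) + ext T.d *ᵥ u) →
    (∀ a b, g a b ≠ 0 → - J.deg a = P.deg b + i) → J.dᴴ * g + g * P.d = 0 →
    (∀ y : Q0.I → MonoidAlgebra R G, (∀ j, y j ≠ 0 → Q0.deg j = 0) →
      ∃ v, (ext g)ᴴ *ᵥ (W *ᵥ y) = (ext P.d)ᴴ *ᵥ v) →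
    ∀ y : J.I → MonoidAlgebra R L, (∀ j, y j ≠ 0 → J.deg j = 0) → ∃ v, gᴴ *ᵥ y = P.dᴴ *ᵥ v

/-- **GRC** (size 180; imports `AU/DES`): `J^*` is exact in degree `i`.

PROOF. DES with `A = S`, `φ = id`, `V = ⊤`, `T := P.dual`, `Q := J`, `M = gᴴ` (`- P.deg b = J.deg a + i`), `e = i - 1`, `q0 = -1`,
`s = 1`: `P.dᴴ gᴴ + gᴴ J.d = 0` (star of the equation); the columns `a` of `f0` of degree `0` are `v_a`, `gᴴ e_a = P.dᴴ v_a` (the
hypothesis; take the part of `v_a` of `P.dual`-degree `i - 1`; the equation holds there because `f0 * J.d` has zero columns of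
degree `0`: `J.deg ≤ 0`); exactness of `P.dual` below `q0 + e + 2 = i`. `h` with `P.dᴴ h = gᴴ + h J.d`. Star:
`g = hᴴ P.d - J.dᴴ hᴴ`. For `y : P.I → S` of degree `0`: `P.d y = 0`, so `γ y = g y = J.dᴴ (-(hᴴ y))`. Let `x` be supported in the
degrees `< i + 1` of `J.dual`, `J.dᴴ x = 0`: its parts of degree `< i` are handled by `J.dual.ExBelow i`; its part `x'` of degree
`i` is in `J.dual.Cy i`; `onto`: `x' - γ y ∈ J.dual.Bd i` (take the part of degree `0` of `y`). -/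
def SpecGRC : Prop :=
  ∀ (S : Type) [Ring S] [StarRing S] (J P : FC S) (i : ℕ) (γ : Matrix J.dual.I P.I S)
    (g : Matrix J.I P.I S), (∀ j, J.deg j ≤ 0) → P.Resolves (J.dual.Bd i) (J.dual.Cy i) γ →
    P.dual.ExBelow i → J.dual.ExBelow i → (∀ a b, g a b ≠ 0 → - J.deg a = P.deg b + i) →
    (∀ a b, P.deg b = 0 → g a b = γ a b) → J.dᴴ * g + g * P.d = 0 →
    (∀ y : J.I → S, (∀ j, y j ≠ 0 → J.deg j = 0) → ∃ v, gᴴ *ᵥ y = P.dᴴ *ᵥ v) →
    J.dual.ExBelow ((i + 1 : ℕ) : ℤ)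

/-- **GRD** (size 120, deps `SpecRSC`, `SpecZWF`, `SpecGRE`, `SpecWLF`, `SpecGRA`, `SpecGRB`, `SpecGRC`): LEMMA G.

PROOF. ZWF, RSC: `J`, `q`. `J.dual.ExBelow 0` is empty (`J.deg ≤ 0`). `J.dual.ExBelow i → J.dual.ExBelow (i + 1)` for `i < m`: `wa` for
`J`, `c = i`: `P`, `γ`; GRE: `g`; WLF: `W`; GRA; GRB; GRC. Induction up to `m`. -/
def SpecGRD : Prop :=
  ∀ (R G : Type) [Ring R] [StarRing R] [Group G] (L : Subgroup G) (d : ℕ),
    WAR (MonoidAlgebra R L) d → ∀ (C T : FC (MonoidAlgebra R L)) (k : ℤ)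
    (w : Matrix T.I C.I (MonoidAlgebra R G)), WM C T w → ∀ (m : ℕ)
    (Q0 : FC (MonoidAlgebra R L)) (g0 : Matrix C.I Q0.I (MonoidAlgebra R L)),
    Q0.Resolves (C.Bd k) (C.Cy k) g0 → Q0.dual.ExBelow m →
    ∃ (J : FC (MonoidAlgebra R L)) (q : Matrix T.I J.I (MonoidAlgebra R L)),
      J.Resolves (T.Bd k) (ZW C T k w) q ∧ J.dual.ExBelow m

/-- **RDW** (size 180; imports `RO/AUM`; see `AU/RSZ.lean`, `AU/RSP.lean`): the data of the surgery.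

PROOF. `J' = sh J k`. `auLIF` for `C`, `J'`, `k`, `g0 = q` (rows of degree `k`: the columns of `q` are in `Z ≤ C.Cy k`; columns of
`J'`-degree `k`): `C.d q = 0`, `q (J.d x) ∈ C.Bd k` (`im`): `g`. `dk`, `gg`, `cg`. `g1`: `J.ExBelow 0`. `g2`: `g y = q y` is in
`Z ≤ C.Cy k` (`mem`), so if it is `C.d x` it is in `C.Bd k`: `ker`. `g3`: `mem`. `g3'`: `onto`, take the part of `y` of degree `0` (`supp`).
`g4`: the degrees of `J'.dual` are those of `J.dual` minus `k`. -/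
def SpecRDW : Prop :=
  ∀ (S : Type) [Ring S] [StarRing S] (C : FC S) (k : ℕ) (Z : Submodule Sᵐᵒᵖ (C.I → S)),
    C.ExBelow k → Z ≤ C.Cy k → ∀ (J : FC S) (q : Matrix C.I J.I S), J.Resolves (C.Bd k) Z q →
    J.dual.ExBelow ((2 * k : ℕ) : ℤ) → ∃ (J' : FC S) (g : Matrix C.I J'.I S), RD C k Z J' g

/-- **ACW** (size 80; imports `AU/TRU`; see `AU/ACY.lean`): the end of the process.

PROOF. The proof of `AU/ACY.lean` uses only `injdim`. -/
def SpecACW : Prop :=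
  ∀ (S : Type) [Ring S] [StarRing S] (d : ℕ), WAR S d → ∃ k : ℕ, ∀ C : FC S, C.ExBelow k →
    C.dual.ExBelow k → ∀ x : C.I → S, C.d *ᵥ x = 0 → ∃ y, x = C.d *ᵥ y

/-! ### Part 2: surgery -/

/-- **EXW** (size 350; imports `AU/EXF` or a copy of its proof): extension of the forms.

PROOF. The proof of `AU/EXF.lean`, with `RD C k Z J g` and `Z ≤ Ker C a 0 k` instead of `RD C k (Ker C a μ k) J g` (only `g3` is used to
see that the columns of `g` of degree `k` are in the kernel); `X3 = ∅`, `μ = 0`, `f' = 0`. -/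
def SpecEXW : Prop :=
  ∀ (R G : Type) [Ring R] [StarRing R] [Group G] (L : Subgroup G) (Xa Xb : Set G) (ε : ℤˣ)
    (C J : FC (MonoidAlgebra R L)) (a b : Matrix C.I C.I (MonoidAlgebra R G)) (k : ℤ)
    (Z : Submodule (MonoidAlgebra R L)ᵐᵒᵖ (C.I → MonoidAlgebra R L))
    (g : Matrix C.I J.I (MonoidAlgebra R L)),
    (∀ h ∈ L, ∀ x ∈ Xa, x * h ∈ Xa) → (∀ h ∈ L, ∀ x ∈ Xa, h * x ∈ Xa) → (∀ x ∈ Xa, x⁻¹ ∈ Xa) →
    (∀ x ∈ Xa, x⁻¹ ≠ x) → NF L Xa Xb ∅ ε C a 0 b → C.ExBelow k → C.dual.ExBelow k →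
    Z ≤ Ker C a 0 k → RD C k Z J g →
    ∃ f t, EX Xa ∅ ε C J g a 0 f 0 t

/-- **SRW** (size 250, dep `SpecEXW`; imports `AU/CNE`, `AU/CNF`, `AU/GDS`, `AU/FLT`; see `RO/SUR.lean`): a surgery.

PROOF. As `RO/SUR.lean`; `kill`: `x ∈ Z`, `g3'`: `x = g y + C.d w` with `y` of `J`-degree `k`, `J.d y = 0`, so
`C'.d (w; y) = (x; 0) = p x`. -/
def SpecSRW : Prop :=
  ∀ (R G : Type) [Ring R] [StarRing R] [Group G] (L : Subgroup G) (Xa Xb : Set G) (ε : ℤˣ),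
    (∀ l ∈ L, ∀ x ∈ Xa, l * x ∈ Xa) → (∀ l ∈ L, ∀ x ∈ Xa, x * l ∈ Xa) →
    (∀ x ∈ Xa, x⁻¹ ∈ Xa) → (∀ x ∈ Xa, x⁻¹ ≠ x) →
    ∀ (C : FC (MonoidAlgebra R L)) (a b : Matrix C.I C.I (MonoidAlgebra R G)) (k : ℕ)
      (Z : Submodule (MonoidAlgebra R L)ᵐᵒᵖ (C.I → MonoidAlgebra R L)),
    NF L Xa Xb ∅ ε C a 0 b → C.ExBelow k → C.dual.ExBelow k → Z ≤ Ker C a 0 k →
    (∃ (J : FC (MonoidAlgebra R L)) (g : Matrix C.I J.I (MonoidAlgebra R L)), RD C k Z J g) →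
    ∃ (C' : FC (MonoidAlgebra R L)) (a' b' : Matrix C'.I C'.I (MonoidAlgebra R G))
      (p : Matrix C'.I C.I (MonoidAlgebra R L)), SurW Xa Xb ε k C C' a b a' b' p Z

/-- **SBW** (size 180, dep `SpecSRW`; imports `RO/SWB`; see `RO/SUB.lean`): a surgery on the dual.

PROOF. As `RO/SUB.lean`: SRW for `(C.dual; b, 0, a)`, `Z ≤ Ker C.dual b 0 k`. -/
def SpecSBW : Prop :=
  ∀ (R G : Type) [Ring R] [StarRing R] [Group G] (L : Subgroup G) (Xa Xb : Set G) (ε : ℤˣ),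
    (∀ l ∈ L, ∀ x ∈ Xb, l * x ∈ Xb) → (∀ l ∈ L, ∀ x ∈ Xb, x * l ∈ Xb) →
    (∀ x ∈ Xb, x⁻¹ ∈ Xb) → (∀ x ∈ Xb, x⁻¹ ≠ x) →
    ∀ (C : FC (MonoidAlgebra R L)) (a b : Matrix C.I C.I (MonoidAlgebra R G)) (k : ℕ)
      (Z : Submodule (MonoidAlgebra R L)ᵐᵒᵖ (C.dual.I → MonoidAlgebra R L)),
    NF L Xa Xb ∅ ε C a 0 b → C.ExBelow k → C.dual.ExBelow k →
    Z ≤ Ker (G := G) C.dual b 0 k →
    (∃ (J : FC (MonoidAlgebra R L)) (g : Matrix C.dual.I J.I (MonoidAlgebra R L)),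
      RD C.dual k Z J g) →
    ∃ (C1 : FC (MonoidAlgebra R L)) (a1 b1 : Matrix C1.I C1.I (MonoidAlgebra R G))
      (q : Matrix C.I C1.I (MonoidAlgebra R L)), SurBW Xa Xb ε k C C1 a b a1 b1 q Z

/-- **STW** (size 280, deps `SpecMRS`, `SpecGRD`, `SpecRDW`, `SpecSBW`; imports `RO/CMP`, `RO/SUM`; see `RO/STB.lean`): step b.

PROOF. `w = a * (b * a)^l`. `WM C C.dual w`: `gw`: `ga`, `gb`; `cw`: `ca`, `cb`. `Z = ZW C C.dual k w`. MRS for `C`: `Q0`, `g0`; GRD with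
`T := C.dual`, `m = 2 k`: `J`, `q`; RDW for `C.dual`. `Z ≤ Ker C.dual b 0 k`: `Z ≤ C.dual.Cy k` (part of the proof of ZWF: direct), the condition
on `b` for `C.dual.Bd k`: `b (ext C.d)ᴴ = ext C.d b`; for `z = lres t (a x')`, `x' = (b a)^l exv x` (support in `Y` by `y1`, `yl`, `ya`): CMP with
`M := b`, `X := Xb`, `Y := Y2 = {x * t | x ∈ Xa, t ∈ Y}`, `D := C.d`, `x1 := a x'`: `b (a x') = (b a)^(l+1) exv x = ext C.d u` (`PL (l+1)`);
`Disj L Xb Y2`: `z (x t) = z' (x' t')` gives `t' = l t` (`dj`), `z x = z' x' l`, `z⁻¹ z' = x l⁻¹ x'⁻¹ ∈ L` (`x, x' ∈ L g`, `g L g⁻¹ = L`). SBW for `Z`: `C1`, `q`.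
`PL (l+1)`: as in `RO/STB.lean`. `QL l`: for `x ∈ C1.Cy k`, `q x ∈ C.Cy k`, `a1 (b1 a1)^l exv x = (ext q)ᴴ a (b a)^l exv (q x)`; SUM with
`M := (ext q)ᴴ`, `D := C1.dᴴ`, `x1 := a (b a)^l exv (q x)`: its components are in `Z`, `kill`. -/
def SpecSTW : Prop :=
  ∀ (R G : Type) [Ring R] [StarRing R] [Group G] (L : Subgroup G) (g : G) (Xa Xb Y : Set G),
    Loc L g Xa Xb Y → ∀ (ε : ℤˣ) (d : ℕ), WAR (MonoidAlgebra R L) d →
    ∀ (C : FC (MonoidAlgebra R L)) (a b : Matrix C.I C.I (MonoidAlgebra R G)) (k l : ℕ),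
    NF L Xa Xb ∅ ε C a 0 b → C.ExBelow k → C.dual.ExBelow k → PL C a b k (l + 1) →
    ∃ (C1 : FC (MonoidAlgebra R L)) (a1 b1 : Matrix C1.I C1.I (MonoidAlgebra R G)),
      NF L Xa Xb ∅ ε C1 a1 0 b1 ∧ C1.ExBelow k ∧ C1.dual.ExBelow k ∧ PL C1 a1 b1 k (l + 1) ∧
      QL C1 a1 b1 k l ∧ (Good Xa Xb ε C1 a1 0 b1 → Good Xa Xb ε C a 0 b)

/-- **SAW** (size 250, deps `SpecMRS`, `SpecGRD`, `SpecRDW`, `SpecSRW`; imports `RO/CMP`, `RO/SUM`; see `RO/STA.lean`): step a.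

PROOF. `w = (b * a)^l`, `WM C C w`, `Z = ZW C C k w`. MRS, GRD with `T := C`, RDW. `Z ≤ Ker C a 0 k`: for `C.Bd k`: `a ext C.d = (ext C.d)ᴴ a`; for
`z = lres t ((b a)^l exv x)`: CMP with `M := a`, `X := Xa`, `D := C.dᴴ` (`Disj L Xa Y` as in `RO/STA.lean`) and `QL l`. SRW: `C'`, `p`. `x' ∈ C'.Cy k` is `p x`
(`top`), `(b' a')^l exv (p x) = ext p ((b a)^l exv x)`; SUM with `M := ext p`, `D := C'.d`: the components are in `Z`, `kill`. -/
def SpecSAW : Prop :=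
  ∀ (R G : Type) [Ring R] [StarRing R] [Group G] (L : Subgroup G) (g : G) (Xa Xb Y : Set G),
    Loc L g Xa Xb Y → ∀ (ε : ℤˣ) (d : ℕ), WAR (MonoidAlgebra R L) d →
    ∀ (C : FC (MonoidAlgebra R L)) (a b : Matrix C.I C.I (MonoidAlgebra R G)) (k l : ℕ),
    NF L Xa Xb ∅ ε C a 0 b → C.ExBelow k → C.dual.ExBelow k → QL C a b k l →
    ∃ (C' : FC (MonoidAlgebra R L)) (a' b' : Matrix C'.I C'.I (MonoidAlgebra R G)),
      NF L Xa Xb ∅ ε C' a' 0 b' ∧ C'.ExBelow k ∧ C'.dual.ExBelow k ∧ PL C' a' b' k l ∧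
      (Good Xa Xb ε C' a' 0 b' → Good Xa Xb ε C a 0 b)

/-- **LVW** (size 250, deps `SpecMRS`, `SpecRDW`, `SpecSBW`, `SpecSTW`, `SpecSAW`; see `RO/LVB.lean`): one level.

PROOF. As `RO/LVB.lean`. `l = 0`: `C.ExBelow (k + 1)`. `Z = C.dual.Cy k`: MRS for `C.dual` (`C.dual.dual` has the same degrees and differential as `C`), RDW;
`Z ≤ Ker C.dual b 0 k`: `b exv y` is a cocycle of degree `k` of `C ⊗ A`, FLT for `C.ExBelow (k + 1)`. SBW. -/
def SpecLVW : Prop :=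
  ∀ (R G : Type) [Ring R] [StarRing R] [Group G] (L : Subgroup G) (g : G) (Xa Xb Y : Set G),
    Loc L g Xa Xb Y → ∀ (ε : ℤˣ) (d : ℕ), WAR (MonoidAlgebra R L) d →
    ∀ (C : FC (MonoidAlgebra R L)) (a b : Matrix C.I C.I (MonoidAlgebra R G)) (k : ℕ),
    NF L Xa Xb ∅ ε C a 0 b → C.ExBelow k → C.dual.ExBelow k →
    ∃ (C' : FC (MonoidAlgebra R L)) (a' b' : Matrix C'.I C'.I (MonoidAlgebra R G)),
      NF L Xa Xb ∅ ε C' a' 0 b' ∧ C'.ExBelow (k + 1 : ℕ) ∧ C'.dual.ExBelow (k + 1 : ℕ) ∧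
      (Good Xa Xb ε C' a' 0 b' → Good Xa Xb ε C a 0 b)

/-- **BTW** (size 150, deps `SpecACW`, `SpecLVW`; imports `RO/AUM`, `AU/FNU`; see `RO/SBT.lean`): the single block.

PROOF. As `RO/SBT.lean`. -/
def SpecBTW : Prop :=
  ∀ (R G : Type) [Ring R] [StarRing R] [Group G] (L : Subgroup G) (g : G) (Xa Xb Y : Set G)
    (d : ℕ), Loc L g Xa Xb Y → WAR (MonoidAlgebra R L) d → Blk R Xa Xb

end Pool.Agent.Lib.MP8a3537.WAB
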