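import Pool.Agent.Lib.MP_8a3537_gt.WAB.Spec
import Pool.Agent.Lib.MP_8a3537_gt.AU.TRU

/-!
# Module ACW: the end of the process (MP_8a3537_gt, folder WAB)

The proof of `AU/ACY.lean`, with the constant `d` of `WAR S d`.
-/

namespace Pool.Agent.Lib.MP8a3537.WAB

open Matrix Pool.Agent.Lib.MP8a3537.UV Pool.Agent.Lib.MP8a3537.AU Pool.Agent.Lib.MP8a3537.RO

namespace ACWAux

variable {S : Type} [Ring S]

/-- The part of a cocycle in the degrees `< k` is a cocycle. -/
theorem low_cocycle (C : FC S) (k : ℤ) (x : C.I → S) (hx : C.d *ᵥ x = 0) :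
    C.d *ᵥ (fun i => if C.deg i < k then x i else 0) = 0 := by
  funext i
  rw [Pi.zero_apply]
  have hxi : ∑ j, C.d i j * x j = 0 := congrFun hx i
  change ∑ j, C.d i j * (if C.deg j < k then x j else 0) = 0
  by_cases hi : C.deg i ≤ k
  · rw [← hxi]
    refine Finset.sum_congr rfl fun j _ => ?_
    by_cases hd : C.d i j = 0
    · rw [hd, zero_mul, zero_mul]
    · have := C.hd i j hd
      rw [if_pos (by omega)]
  · refine Finset.sum_eq_zero fun j _ => ?_
    by_cases hd : C.d i j = 0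
    · rw [hd, zero_mul]
    · have := C.hd i j hd
      rw [if_neg (by omega), mul_zero]

end ACWAux

theorem specACW : SpecACW := by
  intro S _ _ d hS
  have hd := hS.injdim
  refine ⟨d + 1, fun C hC hC' x hx => ?_⟩
  obtain ⟨P, ρ, hres, hinj, hdeg, hcov, hPd, hcy, hbd⟩ := specTRU S C ((d + 1 : ℕ) : ℤ) hC'
  set k : ℤ := ((d + 1 : ℕ) : ℤ) with hk
  have hkpos : 1 ≤ k := by rw [hk]; push_cast; omega
  set x1 : C.I → S := fun i => if C.deg i < k then x i else 0 with hx1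
  have h1 : C.d *ᵥ x1 = 0 := ACWAux.low_cocycle C k x hx
  obtain ⟨y1, hy1⟩ := hC x1 (by
    intro i hi
    by_contra hlt
    exact hi (by simp only [hx1]; rw [if_neg hlt])) h1
  set x2 : C.I → S := x - x1 with hx2
  have h2 : C.d *ᵥ x2 = 0 := by rw [hx2, mulVec_sub, hx, h1, sub_zero]
  have hs2 : ∀ i, x2 i ≠ 0 → k ≤ C.deg i := by
    intro i hi
    by_contra hlt
    apply hi
    simp only [hx2, hx1, Pi.sub_apply]
    rw [if_pos (by omega), sub_self]
  have h3 : P.dual.d *ᵥ (x2 ∘ ρ) = 0 := (hcy k (by omega) x2 hs2).1 h2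
  have h4 : ∃ y, x2 ∘ ρ = P.dual.d *ᵥ y := by
    refine hd P hres (x2 ∘ ρ) ?_ h3
    intro j hj
    have e1 := hs2 (ρ j) hj
    have e2 := hdeg j
    change (d : ℤ) < - P.deg j
    rw [hk] at e1 e2
    push_cast at e1 e2
    omega
  obtain ⟨y2, hy2⟩ := (hbd k (by omega) x2 hs2).2 h4
  refine ⟨y1 + y2, ?_⟩
  rw [mulVec_add, ← hy1, ← hy2, hx2]
  abel

end Pool.Agent.Lib.MP8a3537.WAB
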