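import Pool.Agent.Lib.MP_8a3537_gt.WAB.Spec
import Pool.Agent.Lib.MP_8a3537_gt.RO.AUM

/-!
# MP_8a3537_gt, folder WAB: module RDW (the data of the surgery)
-/

set_option autoImplicit false

namespace Pool.Agent.Lib.MP8a3537.WAB

open Matrix Pool.Agent.Lib.MP8a3537.UV Pool.Agent.Lib.MP8a3537.AU Pool.Agent.Lib.MP8a3537.RO

theorem specRDW : SpecRDW := by
  intro S _ _ C k Z hC hZC J q hq hJd
  obtain ⟨hres, hsupp, hmem, honto, him, hker⟩ := hq
  have hcol : ∀ j, (fun i => q i j) ∈ C.Cy k := by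
    intro j
    have h := hmem (Pi.single j 1)
    rw [mulVec_single_one] at h
    exact hZC h
  obtain ⟨g, h1, h2, h3⟩ := auLIF S C (sh J k) k q hC
    (fun j => by
      have := hres.1 j
      change J.deg j + k ≤ k
      omega)
    (fun i j hij => ⟨(hcol j).1 i hij, by
      change J.deg j + k = k
      rw [hsupp i j hij, zero_add]⟩)
    (by
      ext i j
      exact congrFun (hcol j).2 i)
    (fun x _ => (him x).2)
  -- on the vectors of degree `k`, `g` is `q`
  have hgq : ∀ y : J.I → S, (∀ j, y j ≠ 0 → J.deg j + k = k) → g *ᵥ y = q *ᵥ y := by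
    intro y hy
    exact RSPAux.mulVec_congr _ _ _ fun i j hj => h2 i j (hy j hj)
  refine ⟨sh J k, g, ?_⟩
  refine
    { dk := fun j => ?_
      gg := h1
      cg := h3
      g1 := ?_
      g2 := ?_
      g3 := ?_
      g3' := ?_
      g4 := ?_ }
  · have := hres.1 j
    change J.deg j + k ≤ k
    omega
  · intro x hx hx0
    refine hres.2 x (fun i hi => ?_) hx0
    have h4 : J.deg i + k < k := hx i hi
    omega
  · rintro y hy ⟨x, hx⟩
    rw [hgq y hy] at hx
    refine hker y (fun j hj => ?_) ⟨(hZC (hmem y)).1, x, hx⟩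
    have h4 : J.deg j + k = k := hy j hj
    omega
  · intro y hy
    rw [hgq y hy]
    exact hmem y
  · intro z hz
    obtain ⟨y, hy⟩ := honto z hz
    classical
    let y0 : J.I → S := fun j => if J.deg j = 0 then y j else 0
    have hy0 : q *ᵥ y0 = q *ᵥ y :=
      RSZAux.mulVec_restrict (fun j => J.deg j = 0) q y hsupp
    have hy0k : ∀ j, y0 j ≠ 0 → J.deg j + k = k := by
      intro j hj
      by_cases h0 : J.deg j = 0
      · omega
      · exact absurd (if_neg h0) hj
    obtain ⟨_, x, hx⟩ := hy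
    refine ⟨y0, hy0k, x, ?_⟩
    have h7 : g *ᵥ y0 = q *ᵥ y := (hgq y0 hy0k).trans hy0
    rw [← hx]
    change z = g *ᵥ y0 + (z - q *ᵥ y)
    rw [h7]
    abel
  · intro x hx hx0
    refine hJd x (fun i hi => ?_) hx0
    have h4 : -(J.deg i + k) < k := hx i hi
    change - J.deg i < _
    push_cast
    omega

end Pool.Agent.Lib.MP8a3537.WAB
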